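import Pool.Agent.Helper7.SB.Defs

/-!
# SB: definitions for the abstract lifting theorem
-/

namespace Pool.Agent.Helper7.SB

/-- `T` is multiplicative up to an error, exactly multiplicative for factors in `N0`, and its
values span the ring `H` -/
structure IsTw {H : Type} [Ring H] {N : Type} [Group N] (P N0 : Subgroup N) (T : N → H) :
    Prop where
  le : P ≤ N0
  one : T 1 = 1
  left : ∀ g ∈ N0, ∀ n, T (g * n) = T g * T n
  right : ∀ g ∈ N0, ∀ n, T (n * g) = T n * T g
  span : Submodule.span ℤ (Set.range T) = ⊤

/-- `f` is exactly multiplicative for factors in `N0` and multiplicative modulo `J ^ a` -/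
structure IsF {H : Type} [Ring H] {N : Type} [Group N] (N0 : Subgroup N) (J : Submodule ℤ H)
    (a : ℕ) (f : N → H) : Prop where
  one : f 1 = 1
  left : ∀ g ∈ N0, ∀ n, f (g * n) = f g * f n
  right : ∀ g ∈ N0, ∀ n, f (n * g) = f n * f g
  err : ∀ n n', f n * f n' - f (n * n') ∈ J ^ a

end Pool.Agent.Helper7.SB
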