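import Pool.Agent.Helper7.SB.AbsDefs

/-!
# SB-09: one step of the iteration

PROOF. `J ^ a` (`a ≥ 1`) is stable under multiplication by elements of `H` on both sides (`pow_succ`,
`pow_succ'`, `Submodule.mul_induction_on`), and `J ^ a * J ^ b = J ^ (a + b)`.
`f n` is a unit: `f n * f n⁻¹ - 1 ∈ J ^ a ≤ J` (`err`, `one`) and `J` is nilpotent
(`x ∈ J → x ^ M ∈ J ^ M = ⊥`), so `f n * f n⁻¹` is a unit (`IsNilpotent.isUnit_one_add`), also
`f n⁻¹ * f n`, hence `f n` is a unit. Write `w n` for the inverse of `f n`. `q` is central: natural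
numbers are central and `q` is the inverse of the natural number `i = P.index`; and `s q = q` for every
ring automorphism `s` (both are inverse to `i`).

Put `g m n = w m * f (m n)`. For `t ∈ P`: `g (t m) n = g m n` (`f (t m) = f t * f m`,
`f (t m n) = f t * f (m n)`); `P` is normal, so `g m n` depends only on the coset of `m` in `N ⧸ P`
(`m t = (m t m⁻¹) m`). Define `f' n = q * ∑ c : N ⧸ P, g (Quotient.out c) n`
(`Fintype.card (N ⧸ P) = P.index`). For every function `G` on `N` constant on the cosets of `P` and every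
bijection `β` of `N` which maps cosets to cosets, `∑ c, G (β (out c)) = ∑ c, G (out c)`.

(i) `f' g = f g` for `g ∈ N0`: `g m g = w m * f m * f g = f g`. In particular `f' 1 = 1`.
(ii) `f' (n g) = f' n * f g` for `g ∈ N0`: `f (m n g) = f (m n) f g`.
(iii) `f' (g n) = f g * f' n` for `g ∈ N0`: substitute `m ↦ m g⁻¹` (right translation maps cosets to
cosets since `P` is normal): the term at `m g⁻¹` is `w (m g⁻¹) * f (m n)` and `f (m g⁻¹) = f m f g⁻¹`, so
`w (m g⁻¹) = (f g⁻¹)⁻¹ w m = f g * w m` (`f g * f g⁻¹ = f 1 = 1`).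
(iv) `f' n - f n ∈ J ^ a`: `g m n - f n = w m (f (m n) - f m f n) ∈ J ^ a`.
(v) error in `J ^ (2a)`: put `ε m n = g m n - f n ∈ J ^ a`, `E n = q ∑ ε = f' n - f n`. Since
`g m n * g (m n) n' = g m (n n')`: `f' (n n') = q ∑ (f n + ε m n)(f n' + ε (m n) n') =
f n f n' + E n f n' + f n E n' + (element of J ^ a * J ^ a)` where
`q ∑ ε (m n) n' = E n'` by the substitution `m ↦ m n`. And
`f' n f' n' = (f n + E n)(f n' + E n')`. The difference is in `J ^ (2 a)`.
(vi) equivariance: `s (g m n) = g (σ m) (σ n)`, and `σ` maps cosets of `P` to cosets of `P`.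
-/

namespace Pool.Agent.Helper7.SB

theorem iter_step {H : Type} [Ring H] {N : Type} [Group N] [Finite N] {P N0 : Subgroup N}
    [P.Normal] (hPN : P ≤ N0) {J : Submodule ℤ H} (hl : ∀ x ∈ J, ∀ y, y * x ∈ J)
    (hr : ∀ x ∈ J, ∀ y, x * y ∈ J) {M : ℕ} (hM : J ^ M = ⊥) {q : H}
    (hq : q * (P.index : H) = 1) {a : ℕ} (ha : 1 ≤ a) {f : N → H} (hf : IsF N0 J a f) :
    ∃ f' : N → H, IsF N0 J (2 * a) f' ∧ (∀ g ∈ N0, f' g = f g) ∧
      (∀ n, f' n - f n ∈ J ^ a) ∧
      ∀ (s : H ≃+* H) (σ : N ≃* N), (∀ x, σ x ∈ P ↔ x ∈ P) → (∀ n, s (f n) = f (σ n)) →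
        ∀ n, s (f' n) = f' (σ n) := by
  sorry

end Pool.Agent.Helper7.SB
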