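import Pool.Agent.Helper7.SB.Nilp
import Pool.Agent.Helper7.SB.Step

/-!
# SB-10: the abstract lifting theorem

PROOF. `J = JJ p P T` is a two sided ideal (`JJ_left`, `JJ_right`), `J ^ M = ⊥` (`JJ_nilp`).
`P.index` is prime to `p`, so `u i + v p ^ k = 1` with integers `u, v` (`i = P.index`), and
`q = u` satisfies `q i = 1` in `H` since `(p : H) ^ k = 0`.
By induction on `j` there is `f_j` with `IsF N0 J (2 ^ j) f_j`, `f_j = T` on `N0`, `f_j n - T n ∈ J`,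
and the equivariance `∀ s σ, (σ preserves P) → (∀ n, s (T n) = T (σ n)) → ∀ n, s (f_j n) = f_j (σ n)`:
`f_0 = T` (`herr`, `pow_one`), `f_{j+1}` from `iter_step` with `a = 2 ^ j`
(`J ^ (2 ^ j) ≤ J` since `2 ^ j ≥ 1`: products of elements of the ideal `J`). Take `2 ^ j ≥ M`:
`J ^ (2 ^ j) = J ^ M * J ^ (2 ^ j - M) = ⊥`, so `f_j n * f_j n' = f_j (n n')`: this is `φ`.
-/

namespace Pool.Agent.Helper7.SB

theorem abs_lift {H : Type} [Ring H] [Finite H] {N : Type} [Group N] [Finite N] {p : ℕ}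
    [Fact p.Prime] {P N0 : Subgroup N} [P.Normal] {T : N → H} (hP : IsPGroup p P)
    (hi : ¬ p ∣ P.index) (hT : IsTw P N0 T) {k : ℕ} (hk : (p : H) ^ k = 0)
    (herr : ∀ n n', T n * T n' - T (n * n') ∈ JJ p P T) :
    ∃ φ : N →* H, (∀ g ∈ N0, φ g = T g) ∧ (∀ n, φ n - T n ∈ JJ p P T) ∧
      ∀ (s : H ≃+* H) (σ : N ≃* N), (∀ x, σ x ∈ P ↔ x ∈ P) → (∀ n, s (T n) = T (σ n)) →
        ∀ n, s (φ n) = φ (σ n) := by
  sorry

end Pool.Agent.Helper7.SB
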