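import Pool.Agent.Helper7.SB.Mu

/-!
# SB-04: the idempotent `e` of the group algebra

`eU c U` has the coefficient `c` at the elements of `U` and `0` elsewhere (`eU_coeff`).

PROOF. `eU_coeff`: unfold (`Finsupp.equivFunOnFinite_symm_apply_toFun` or `rfl`). `eU_eq_sum`: compare
coefficients (`MonoidAlgebra.coeff_single`, `Finsupp.single_apply`, `Finset.sum_ite_eq`; coefficients of
sums: `MonoidAlgebra.coeff_sum`, `Finsupp.finsetSum_apply`). `single_mul_eU`: `single u 1 * eU c U` has
coefficient at `x` equal to `(eU c U).coeff (u⁻¹ x)` (`MonoidAlgebra.coeff_single_mul` or a similar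
name, or by `eU_eq_sum` and reindexing the sum by `v ↦ u v`), and `u⁻¹ x ∈ U ↔ x ∈ U`.
`eU_mul_single` similar. `eU_mul_eU`: `eU c U * eU c U = ∑ u, c • (single u 1 * eU c U) =
(|U| c) • eU c U = eU c U`. `N0_comm`: `single g 1 * eU c U` has coefficient `(eU c U).coeff (g⁻¹ x)` at
`x` and `eU c U * single g 1` has coefficient `(eU c U).coeff (x g⁻¹)`; `g⁻¹ x ∈ U ↔ x g⁻¹ ∈ U`
because `x g⁻¹ = g (g⁻¹ x) g⁻¹` and `g ∈ N0`. `eU_aut`: definition of `Pres`.
-/

namespace Pool.Agent.Helper7.SB

variable {K : Type} [Group K] [Finite K] {R : Type} [CommRing R] {P U : Subgroup K}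

open Classical in
theorem eU_coeff (c : R) (U : Subgroup K) (x : K) :
    (eU c U).coeff x = if x ∈ U then c else 0 := by
  sorry

theorem eU_eq_sum (c : R) (U : Subgroup K) [Fintype U] :
    eU c U = c • ∑ u : U, MonoidAlgebra.single (u : K) (1 : R) := by
  sorry

theorem single_mul_eU (c : R) {u : K} (hu : u ∈ U) :
    MonoidAlgebra.single u (1 : R) * eU c U = eU c U := by
  sorry

theorem eU_mul_single (c : R) {u : K} (hu : u ∈ U) :
    eU c U * MonoidAlgebra.single u (1 : R) = eU c U := by
  sorry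

theorem eU_mul_eU (c : R) (hc : c * (Nat.card U : R) = 1) : eU c U * eU c U = eU c U := by
  sorry

theorem N0_comm (c : R) {g : NN P} (hg : g ∈ N0 P U) :
    MonoidAlgebra.single (g : K) (1 : R) * eU c U =
      eU c U * MonoidAlgebra.single (g : K) (1 : R) := by
  sorry

theorem eU_aut (c : R) {σ : MulAut K} (hσ : Pres P U σ) (x : K) :
    (eU c U).coeff (σ x) = (eU c U).coeff x := by
  sorry

/-- multiplicativity of coefficients under an automorphism -/
theorem mul_aut (σ : MulAut K) {a a' b b' : MonoidAlgebra R K}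
    (ha : ∀ x, a'.coeff (σ x) = a.coeff x) (hb : ∀ x, b'.coeff (σ x) = b.coeff x) (x : K) :
    (a' * b').coeff (σ x) = (a * b).coeff x := by
  sorry

end Pool.Agent.Helper7.SB
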