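import Pool.Agent.Helper7.SB.Alg1

/-!
# SB-05: the elements `T n`

Everything follows from the lemmas of `Alg1` by ring computations in the group algebra:
`e e = e`, `u e = e = e u` for `u ∈ U`, `g e = e g` for `g ∈ N0`
(`MonoidAlgebra.single_mul_single`, `MonoidAlgebra.one_def`).

PROOF. `TT_mu`: `x = a n b` with `a, b ∈ U`, `n = mu x`: `e x e = (e a) n (b e) = e n e`.
`TT_N0`: `e g e = g e e = g e`. `TT_one`: `n = 1`. `TT_N0_left`: `T_g T_n = g e (e n e) = g e n e =
e g n e`. `TT_N0_right`: `T_n T_g = (e n e)(g e) = e n g e e`. `TT_idl`, `TT_idr`: `e e = e`.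
`TT_mul`: `T_n T_n' = e n e e n' e = e n e n' e = c ∑ u, e (n u n') e` (`eU_eq_sum`) and
`e (n u n') e = T_{mu (n u n')}` (`TT_mu`). `TT_aut`: `mul_aut`, `eU_aut`, and for the middle factor
`(single (σ n) 1).coeff (σ x) = (single n 1).coeff x` (`σ` injective).
-/

namespace Pool.Agent.Helper7.SB

variable {K : Type} [Group K] [Finite K] {R : Type} [CommRing R] {p : ℕ} {P U : Subgroup K}

theorem TT_mu (h : IsSplit p P U) (c : R) (x : K) : TT c U x = TT c U (mu h x : K) := by
  sorry

theorem TT_idl {c : R} (hc : c * (Nat.card U : R) = 1) (x : K) : eU c U * TT c U x = TT c U x := by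
  sorry

theorem TT_idr {c : R} (hc : c * (Nat.card U : R) = 1) (x : K) : TT c U x * eU c U = TT c U x := by
  sorry

theorem TT_N0 {c : R} (hc : c * (Nat.card U : R) = 1) {g : NN P} (hg : g ∈ N0 P U) :
    TT c U (g : K) = MonoidAlgebra.single (g : K) 1 * eU c U := by
  sorry

theorem TT_one {c : R} (hc : c * (Nat.card U : R) = 1) : TT c U (1 : K) = eU c U := by
  sorry

theorem TT_N0_left {c : R} (hc : c * (Nat.card U : R) = 1) {g : NN P} (hg : g ∈ N0 P U) (n : K) :
    TT c U (g : K) * TT c U n = TT c U ((g : K) * n) := by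
  sorry

theorem TT_N0_right {c : R} (hc : c * (Nat.card U : R) = 1) {g : NN P} (hg : g ∈ N0 P U) (n : K) :
    TT c U n * TT c U (g : K) = TT c U (n * (g : K)) := by
  sorry

theorem TT_mul (h : IsSplit p P U) {c : R} (hc : c * (Nat.card U : R) = 1) [Fintype U] (n n' : K) :
    TT c U n * TT c U n' = c • ∑ u : U, TT c U (mu h (n * (u : K) * n') : K) := by
  sorry

theorem TT_aut (c : R) {σ : MulAut K} (hσ : Pres P U σ) (n x : K) :
    (TT c U (σ n)).coeff (σ x) = (TT c U n).coeff x := by
  sorry

/-- the corner is spanned by the elements `T n` -/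
theorem span_TT (h : IsSplit p P U) {c : R} (x : MonoidAlgebra R K) :
    eU c U * x * eU c U ∈ Submodule.span R (Set.range fun n : NN P => TT c U (n : K)) := by
  sorry

end Pool.Agent.Helper7.SB
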