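import Mathlib

/-!
# SB-02: sums over orbits of `p`-groups (Mathlib only)

PROOF. `orb_sum`: let `G` be a finite `p`-group acting on the finite set `X` with only one fixed point
`x0`. Sum over the orbits (`MulAction.orbitRel.Quotient G X`, `Finset.sum_fiberwise` /
`MulAction.selfEquivSigmaOrbits`, or strong induction on an invariant `Finset`): on an orbit `O` the
function `F` is constant, the sum over `O` is `|O| • F x`, and `|O|` is `1` or divisible by `p`
(`|O|` divides `|G|`, a power of `p`: `MulAction.card_orbit_mul_card_stabilizer_eq_card_group`,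
`Nat.card (orbit G x) = index of the stabilizer`; `IsPGroup.card_orbit`). If `p ∣ |O|` then
`|O| • F x = 0` by `hp`. If `|O| = 1` then `x` is a fixed point, so `x = x0`. Hence the sum is `F x0`.

`orb_card`: `orb_sum` with `M = ZMod p`, `F = 1` (or `IsPGroup.card_modEq_card_fixedPoints`).

`exists_fixed`: `G` a finite `p`-group acting on the finite set `X` with `p ∣ |X|` and a fixed point
`x0`; then there is another fixed point (`IsPGroup.exists_fixed_point_of_prime_dvd_card_of_fixed_point`).
It is stated here in the form for a finite additive group `V` with `p • v = 0` for all `v`, `V` not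
trivial: there is a fixed `v ≠ 0` (`p ∣ |V|` because `V` has an element of order `p`:
`addOrderOf v = p` for `v ≠ 0` and `addOrderOf_dvd_natCard`).
-/

namespace Pool.Agent.Helper7.SB

theorem orb_sum {p : ℕ} [Fact p.Prime] {G X M : Type} [Group G] [Finite G] [Fintype X]
    [MulAction G X] (hG : IsPGroup p G) [AddCommGroup M] (F : X → M)
    (hF : ∀ (g : G) (x : X), F (g • x) = F x) (hp : ∀ x, p • F x = 0) (x0 : X)
    (h0 : ∀ g : G, g • x0 = x0) (h1 : ∀ x : X, (∀ g : G, g • x = x) → x = x0) :
    ∑ x, F x = F x0 := by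
  sorry

theorem orb_card {p : ℕ} [Fact p.Prime] {G X : Type} [Group G] [Finite G] [Finite X]
    [MulAction G X] (hG : IsPGroup p G) (x0 : X)
    (h0 : ∀ g : G, g • x0 = x0) (h1 : ∀ x : X, (∀ g : G, g • x = x) → x = x0) :
    (Nat.card X : ZMod p) = 1 := by
  sorry

theorem exists_fixed {p : ℕ} [Fact p.Prime] {G V : Type} [Group G] [Finite G] [AddCommGroup V]
    [Finite V] [MulAction G V] (hG : IsPGroup p G) (h0 : ∀ g : G, g • (0 : V) = 0)
    (hp : ∀ v : V, p • v = 0) (hV : ∃ v : V, v ≠ 0) : ∃ v : V, v ≠ 0 ∧ ∀ g : G, g • v = v := by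
  sorry

end Pool.Agent.Helper7.SB
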