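import Pool.Agent.Helper7.SB.Mu
import Pool.Agent.Helper7.SB.Orb

/-!
# SB-03: counting modulo `p`

PROOF. `P` acts on `U` by conjugation (`h.norm`), with only fixed point `1` (`h.fix`).
`card_U`: `orb_card`. `card_inter`: `X = {u : U // n⁻¹ u n ∈ U}`: it is stable under conjugation by
`t ∈ P`: `n⁻¹ (t u t⁻¹) n = s (n⁻¹ u n) s⁻¹` with `s = n⁻¹ t n ∈ P` (`n` normalizes `P`), and `U` is
normalized by `P`. It contains `1`. `orb_card` again.
`sum_mu`: let `M' = M ⧸ J` and `F u = ` the class of `τ (mu (n u n'))` in `M'`. For `t ∈ P`: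
`n (t u t⁻¹) n' = a (n u n') b` with `a = n t n⁻¹ ∈ P` and `b = n'⁻¹ t⁻¹ n' ∈ P`, so by `P_le_N0`,
`mu_N0_left`, `mu_N0_right`: `mu (n (t u t⁻¹) n') = a m b` with `m = mu (n u n')`, and
`a m b = m (m⁻¹ a m) b` with `(m⁻¹ a m) b ∈ P` (`m` normalizes `P`), so `F (t u t⁻¹) = F u` by `ht`.
`p • F u = 0` by `hp`. By `orb_sum`, `∑ u, F u = F 1 =` the class of
`τ (mu (n n')) = τ (n n')` (`mu_coe`). Hence the difference is in `J`
(`QuotientAddGroup.eq_zero_iff`, `map_sum`).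
-/

namespace Pool.Agent.Helper7.SB

variable {K : Type} [Group K] [Finite K] {p : ℕ} [Fact p.Prime] {P U : Subgroup K}

theorem card_U (h : IsSplit p P U) : (Nat.card U : ZMod p) = 1 := by
  sorry

theorem card_inter (h : IsSplit p P U) (n : NN P) :
    (Nat.card {u : U // (n : K)⁻¹ * u * n ∈ U} : ZMod p) = 1 := by
  sorry

theorem sum_mu (h : IsSplit p P U) {M : Type} [AddCommGroup M] [Fintype U] (J : AddSubgroup M)
    (τ : NN P → M) (hp : ∀ m, p • τ m ∈ J) (ht : ∀ m, ∀ t ∈ PN P, τ (m * t) - τ m ∈ J)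
    (n n' : NN P) : ∑ u : U, τ (mu h ((n : K) * u * (n' : K))) - τ (n * n') ∈ J := by
  sorry

end Pool.Agent.Helper7.SB
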