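import Pool.Agent.Helper7.SB.Alg2
import Pool.Agent.Helper7.SB.Cnt

/-!
# SB-06: the coefficients of `T n`, independence modulo `p`

PROOF. `T n = c² ∑ u v n-terms`: `(TT c U n).coeff x = c² * #{(u, v) ∈ U × U : u n v = x}`. If it is
not zero then `x ∈ U n U`, so for `x = n'` in `N`: `n = mu n' = n'` (`mu_eq`, `mu_coe`). If `n' = n`:
the pairs `(u, v)` with `u n v = n` correspond to the `u ∈ U` with `n⁻¹ u n ∈ U`
(`v = n⁻¹ u⁻¹ n`). This gives `coeff_TT`. (It may be easier to prove it in two steps: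
`(single n 1 * eU c U).coeff x = if n⁻¹ x ∈ U then c else 0`, then
`(eU c U * y).coeff x = c * ∑ u : U, y.coeff (u⁻¹ x)`.)
`indep_TT`: compare the coefficients at `n'` in `∑ n, z n • T n = 0`: `z n' * c² * #{...} = 0`, and
`#{...} = 1` in `ZMod p` (`card_inter`), `c ≠ 0` (`c * |U| = 1`), so `z n' = 0`.
-/

namespace Pool.Agent.Helper7.SB

variable {K : Type} [Group K] [Finite K] {p : ℕ} {P U : Subgroup K}

open Classical in
theorem coeff_TT {R : Type} [CommRing R] (h : IsSplit p P U) (c : R) (n n' : NN P) :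
    (TT c U (n : K)).coeff (n' : K) =
      if n = n' then c ^ 2 * (Nat.card {u : U // (n : K)⁻¹ * u * n ∈ U} : R) else 0 := by
  sorry

theorem indep_TT [Fact p.Prime] (h : IsSplit p P U) {c : ZMod p}
    (hc : c * (Nat.card U : ZMod p) = 1) [Fintype (NN P)] (z : NN P → ZMod p)
    (hz : ∑ n : NN P, z n • TT c U (n : K) = 0) : z = 0 := by
  sorry

end Pool.Agent.Helper7.SB
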