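import Pool.Agent.Helper7.SB.Mu

/-!
# SB-29: automorphisms stabilizing the normalizer

PROOF. `P` is a Sylow `p`-subgroup of `K` (`h.pgroup`, `h.index`; `IsPGroup.toSylow`), contained in `NN P` and
normal there, so it is the only Sylow `p`-subgroup of `NN P`. `α` maps `NN P` onto itself, so `α P` (the
image `P.map α`) is a Sylow `p`-subgroup of `NN P` and `α P = P`.
`U' = α U` is a Sylow `r`-subgroup of `K` as `U` is, so there is `g ∈ K` with `U' = g U g⁻¹`
(`MulAction.exists_smul_eq`). `P = α P` normalizes `α U = U'` (image of `h.norm` under `α`; `P`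
normalizes `U`), and `g P g⁻¹` normalizes `g U g⁻¹ = U'`. Both are Sylow `p`-subgroups of
`Y = normalizer U'` (they are Sylow subgroups of `K` contained in `Y`: `Sylow.subtype`), so there is `y ∈ Y` with
`y g P g⁻¹ y⁻¹ = P`. Put `a = y g`: `a ∈ NN P` and `a U a⁻¹ = y U' y⁻¹ = U'`. Let
`σ = (conj a)⁻¹ * α`. `σ U = a⁻¹ U' a = U`, `σ P = a⁻¹ P a = P`.
-/

namespace Pool.Agent.Helper7.SB

theorem aut_dec {K : Type} [Group K] [Finite K] {p r : ℕ} [Fact p.Prime] [Fact r.Prime]
    {P U : Subgroup K} (h : IsSplit p P U) (hU : IsPGroup r U) (hUi : ¬ r ∣ U.index)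
    {α : MulAut K} (hα : ∀ x, α x ∈ NN P ↔ x ∈ NN P) :
    ∃ (g : NN P) (σ : MulAut K), Pres P U σ ∧ α = MulAut.conj (g : K) * σ := by
  sorry

/-- automorphisms preserving `P` preserve its normalizer -/
theorem stab_NN {K : Type} [Group K] {P : Subgroup K} {α : MulAut K}
    (hα : ∀ x, α x ∈ P ↔ x ∈ P) (x : K) : α x ∈ NN P ↔ x ∈ NN P := aut_NN hα x

end Pool.Agent.Helper7.SB
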