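import Pool.Agent.Helper7.SB.EvL
import Pool.Agent.Helper7.SB.Cnt

/-!
# SB-27: the degree congruence

PROOF. `d |U| = ∑ u : U, θ u` (`ev_eU`, `c = |U|⁻¹`). The values `θ u` are algebraic integers (sums of roots of
unity; there are proofs in the pool, search for `isIntegral` and `character`, e.g. in `Helper42` or `Helper7/MK`).
`P` acts on `U` by conjugation, with only fixed point `1`, and `θ` is constant on the orbits. Apply `orb_sum` with
`M = O ⧸ p O`, `O = integralClosure ℤ ℂ` (as additive group `O ⧸ (Ideal.span {(p : O)})`) and `F u = ` the class of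
`θ u`: it gives `∑ u, θ u - θ 1 = p y` with `y` an algebraic integer. So
`d |U| - m = p y` and `y` is rational, hence an integer (`IsIntegrallyClosed ℤ`:
`IsIntegrallyClosed.isIntegral_iff` / `exists_algebraMap_eq_of_isIntegral`, or `IsInt` of rational algebraic integers), so
`d |U| ≡ m mod p`, and `|U| ≡ 1 mod p` (`card_U`).
-/

namespace Pool.Agent.Helper7.SB

open Pool.Agent.Helper42.INC

theorem corner_cong {K : Type} [Group K] [Finite K] {p : ℕ} [Fact p.Prime] {P U : Subgroup K}
    (h : IsSplit p P U) {θ : K → ℂ} (hθ : θ ∈ Irr K) {m d : ℕ} (hm : θ 1 = m)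
    (hd : ev θ (eU ((Nat.card U : ℂ)⁻¹) U) = d) : (d : ZMod p) = m := by
  sorry

end Pool.Agent.Helper7.SB
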