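import Pool.Agent.Helper7.SB.CIrr

/-!
# SB-26: surjectivity

PROOF. Let `ψ ∈ Irr (NN P)` and suppose that `ψ` is not of the form `n ↦ ev θ (φ n)`, `θ ∈ Irr K`,
`ev θ e ≠ 0`. Let `z = ∑ n, ψ n⁻¹ • φ n`. Claim: `A z = 0` for every irreducible representation `ρ` of `K` on `V`,
`A = ρ.asAlgebraHom`, character `θ`. If `ev θ e = 0` then `A e` is an idempotent of trace `0`, so `A e = 0`
(the trace of an idempotent is its rank) and `A z = A (z e) = 0`. If `ev θ e ≠ 0`: let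
`W = range (A e)` with the representation `τ` of `NN P` as in `CIrr` (irreducible with character
`n ↦ ev θ (φ n) ≠ ψ`). The operator `∑ n, ψ n⁻¹ τ n` on `W` is zero (`INC.schur_zero`, or Schur and
orthogonality: it commutes with `NN P`, so it is a scalar `s` with `s d = |N| B ψ (character) = 0`), so
`A z = A (z e) = (∑ ψ n⁻¹ A (φ n)) A e = 0`. (To avoid repeating `CIrr`: use only traces: for `x ∈ K`,
`ev θ (x z) = ev θ (x e z e) = ev θ ((e x e) z)`, and `e x e = ∑ b_m φ m` by `hs`, so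
`ev θ (x z) = ∑ b_m ψ n⁻¹ ev θ (φ (m n)) = ∑ b_m (∑ n, ψ n⁻¹ η (m n))`, where `η n = ev θ (φ n)` is in `Irr (NN P)` and
different from `ψ`; `∑ n, ψ n⁻¹ η (m n) = 0` for different irreducible characters: it is the trace of
`τ m ∑ ψ n⁻¹ τ n = 0`. If `ev θ e = 0` then `A e = 0` and `ev θ (x z) = ev θ (x z e) = 0`.)
By `ev_zero_all`, `z = 0`. By the linear independence `ψ n⁻¹ = 0` for all `n`, but `ψ 1 ≠ 0` (`irr_one`).
-/

namespace Pool.Agent.Helper7.SB

open Pool.Agent.Helper42.INC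

theorem corner_surj {K : Type} [Group K] [Finite K] {P U : Subgroup K} {c : ℂ}
    {φ : NN P → MonoidAlgebra ℂ K} (hφ : IsHom c P U φ) (h1 : φ 1 = eU c U)
    (hs : ∀ x, eU c U * x * eU c U ∈ Submodule.span ℂ (Set.range φ))
    (hli : LinearIndependent ℂ φ) {ψ : NN P → ℂ} (hψ : ψ ∈ Irr (NN P)) :
    ∃ θ ∈ Irr K, ev θ (eU c U) ≠ 0 ∧ ∀ n, ψ n = ev θ (φ n) := by
  sorry

end Pool.Agent.Helper7.SB
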