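import Pool.Agent.Helper7.SB.CInj
import Pool.Agent.Helper7.SB.CSurj
import Pool.Agent.Helper7.SB.CDeg

/-!
# SB-28: the bijection

PROOF. `c = |U|⁻¹`. For `θ ∈ IrrP p K`: `θ 1 = m`, `p` does not divide `m` (`IrrP`), `ev θ e = d`
(`corner_deg`), `d ≡ m mod p` (`corner_cong`), so `d ≠ 0` in `ZMod p`, `ev θ e ≠ 0`, and
`n ↦ ev θ (φ n)` is in `Irr (NN P)` (`corner_irr`) with value `d` at `1` (`h1`), `p` does not divide `d`: in
`IrrP p (NN P)`. Injective: `corner_inj`. Surjective: for `ψ ∈ IrrP p (NN P)`, `corner_surj` gives `θ`, and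
`ψ 1 = ev θ e = d`, `p ∤ d`, so `p ∤ m`. (`Equiv.ofBijective`.) The degrees: `deg_eq`; `d = m` in `ZMod p`.
-/

namespace Pool.Agent.Helper7.SB

open Pool.Agent.Helper42.INC

theorem exists_bij {K : Type} [Group K] [Finite K] {p : ℕ} [Fact p.Prime] {P U : Subgroup K}
    (h : IsSplit p P U) {φ : NN P → MonoidAlgebra ℂ K}
    (hφ : IsHom ((Nat.card U : ℂ)⁻¹) P U φ) (h1 : φ 1 = eU ((Nat.card U : ℂ)⁻¹) U)
    (hs : ∀ x, eU ((Nat.card U : ℂ)⁻¹) U * x * eU ((Nat.card U : ℂ)⁻¹) U ∈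
      Submodule.span ℂ (Set.range φ)) (hli : LinearIndependent ℂ φ) :
    ∃ F : IrrP p K ≃ IrrP p (NN P), (∀ θ n, (F θ).1 n = ev θ.1 (φ n)) ∧
      ∀ θ, (deg (F θ).1 : ZMod p) ^ 2 = (deg θ.1 : ZMod p) ^ 2 := by
  sorry

end Pool.Agent.Helper7.SB
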