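import Pool.Agent.Helper7.SB.EvL

/-!
# SB-25: injectivity

PROOF. By linearity `ev θ y = ev θ' y` for all `y` in the span of the range of `φ`, so
`ev θ (e x e) = ev θ' (e x e)` for all `x` in the group algebra. Suppose `θ ≠ θ'`. Let
`x = ∑ y, θ y⁻¹ • y`. Then `ev θ (e x e) = ev θ (x e)` (`ev_comm`, `e e = e` from `h1`, `hφ.mul`: write
`e x e` and move the left `e`). For every `g`: `ev θ (x g) = ∑ y, θ y⁻¹ θ (y g) = (|K| / θ 1) θ g` and
`ev θ' (x g) = ∑ y, θ y⁻¹ θ' (y g) = 0`: for an irreducible representation `ρ'` with character `θ'` the operator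
`∑ y, θ y⁻¹ ρ' y` commutes with all `ρ' g` (class function), so it is a scalar `s` (Schur), with
`s θ' 1 = ∑ y, θ y⁻¹ θ' y = |K| B θ θ'` = `|K|` if `θ = θ'` and `0` otherwise (`B_irr`, `B_symm`); then
`ev θ' (x g) = trace (s ρ' g) = s θ' g` (`INC.schur_zero` may be used for the zero case). By linearity
`ev θ (x e) = (|K| / θ 1) ev θ e ≠ 0` and `ev θ' (x e) = 0`. Contradiction.
-/

namespace Pool.Agent.Helper7.SB

open Pool.Agent.Helper42.INC

theorem corner_inj {K : Type} [Group K] [Finite K] {P U : Subgroup K} {c : ℂ}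
    {φ : NN P → MonoidAlgebra ℂ K} (hφ : IsHom c P U φ) (h1 : φ 1 = eU c U)
    (hs : ∀ x, eU c U * x * eU c U ∈ Submodule.span ℂ (Set.range φ)) {θ θ' : K → ℂ}
    (hθ : θ ∈ Irr K) (hθ' : θ' ∈ Irr K) (h0 : ev θ (eU c U) ≠ 0)
    (he : ∀ n : NN P, ev θ (φ n) = ev θ' (φ n)) : θ = θ' := by
  sorry

end Pool.Agent.Helper7.SB
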