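import Pool.Agent.Helper7.SB.EvL

/-!
# SB-24: the corner of an irreducible representation

The hypotheses: `φ` multiplicative (`hφ`), `φ 1 = e`, and `e x e` in the span of the range of `φ`.

PROOF. Let `ρ` be an irreducible representation of `K` on `V` with character `θ`, `A = ρ.asAlgebraHom`, and
`W = range (A e)`: `v ∈ W ↔ A e v = v` (`e e = e` because `e = φ 1` and `φ 1 * φ 1 = φ 1`). `N` acts on `W` by
`τ n = A (φ n)` restricted to `W` (it maps `V` into `W` since `e φ n = φ n`; `τ 1 = 1` on `W`; `τ` is multiplicative),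
a representation `τ` of `NN P` on `W`. Its character at `n` is the trace of `A (φ n)` on `V`, as `A (φ n)` maps
`V` into `W` (`LinearMap.trace_restrict_eq_of_forall_mem` or `trace (inclusion ∘ f) = trace (f ∘ inclusion)`), which is
`ev θ (φ n)` (`ev_trace`). `W ≠ 0` since `trace (A e) = ev θ e ≠ 0`; `d = finrank W = character at 1 = ev θ e`.
Irreducible: let `W' ⊆ W` be stable under all `τ n`, `0 ≠ w ∈ W'`. The span of the `A x w`, `x` in the group
algebra, is a `K`-stable nonzero subspace, hence `V`. So each `v ∈ W` is `A x w` for some `x`, and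
`v = A e v = A e A x A e w = A (e x e) w`, which is a linear combination of the
`A (φ n) w = τ n w ∈ W'`. Hence `W' = W` (`INC.isIrreducible_iff` may help).
-/

namespace Pool.Agent.Helper7.SB

open Pool.Agent.Helper42.INC

theorem corner_irr {K : Type} [Group K] [Finite K] {P U : Subgroup K} {c : ℂ}
    {φ : NN P → MonoidAlgebra ℂ K} (hφ : IsHom c P U φ) (h1 : φ 1 = eU c U)
    (hs : ∀ x, eU c U * x * eU c U ∈ Submodule.span ℂ (Set.range φ)) {θ : K → ℂ}
    (hθ : θ ∈ Irr K) (h0 : ev θ (eU c U) ≠ 0) : (fun n : NN P => ev θ (φ n)) ∈ Irr (NN P) := by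
  sorry

theorem corner_deg {K : Type} [Group K] [Finite K] {P U : Subgroup K} {c : ℂ}
    {φ : NN P → MonoidAlgebra ℂ K} (hφ : IsHom c P U φ) (h1 : φ 1 = eU c U) {θ : K → ℂ}
    (hθ : θ ∈ Irr K) : ∃ d : ℕ, ev θ (eU c U) = d := by
  sorry

end Pool.Agent.Helper7.SB
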