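import Mathlib

/-!
# SB-20: the `p`-adic integers embed into the complex numbers (Mathlib only)

PROOF. Let `L = AlgebraicClosure ℚ_[p]` (characteristic zero, algebraically closed). Its cardinality is at most
`max #ℚ_[p] ℵ₀` (`Algebra.IsAlgebraic.cardinalMk_le_max`), and `#ℚ_[p] = 𝔠`: `≤`: `ℚ_[p]` is a complete
separable metric space / every element is a limit of a sequence of rationals (`Cardinal.mk_le...`: for
instance the map from `ℕ → ℚ` (cardinality `ℵ₀ ^ ℵ₀ = 𝔠`) : every `x` is `lim` of a rational sequence,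
`padicNormE.rat_dense`, so there is an injection `ℚ_[p] → (ℕ → ℚ)`, `x ↦` (a rational sequence with
`‖x - s n‖ < 1 / (n + 1)`)); `≥`: `continuum_le_cardinal_of_nontriviallyNormedField`. So
`#L = 𝔠 = #ℂ` (`Cardinal.mk_complex`), `ℵ₀ < #L`, and `IsAlgClosed.ringEquiv_of_equiv_of_charZero` gives
`L ≃+* ℂ`. Compose `ℤ_[p] → ℚ_[p] → L → ℂ` (all injective).
(Variant without the algebraic closure of `ℚ_[p]`: take a transcendence basis.)
-/

namespace Pool.Agent.Helper7.SB

theorem exists_emb (p : ℕ) [Fact p.Prime] : ∃ ι : ℤ_[p] →+* ℂ, Function.Injective ι := by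
  sorry

end Pool.Agent.Helper7.SB
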