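import Pool.Agent.Helper7.SB.Alg3

/-!
# SB-18: independence modulo `p`

PROOF. Let `L` be the set of all `z : NN P → ZMod p` with `∑ n, z n • φ n = 0`: an additive group, killed by `p`.
`P` (the group `PN P`, a `p`-group) acts on functions by `(t • z) n = z (n t)`; it maps `L` to itself:
`∑ n, z (n t) • φ n = ∑ m, z m • φ (m t⁻¹) = (∑ m, z m • φ m) * φ t⁻¹ = 0` (`hφ.mul`). Suppose `L` is not
zero. By `exists_fixed` (applied to `V = L`, finite) there is `z ≠ 0` in `L` with `z (n t) = z n` for all `n`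
and `t ∈ P`. Put `s = eU 1 P` (the sum of the elements of `P`). For `t ∈ P`: `φ (n t) = φ n * φ t =
φ n * (t e) = φ n * (e t) = φ n * single t 1` (`n0` with `P_le_N0`, `N0_comm`, `idr`), so
`∑ t ∈ P, φ (n t) = φ n * s`, and in the same way `∑ t ∈ P, TT (n t) = TT n * s` (`TT_N0_right`, `TT_N0`,
`N0_comm`, `TT_idr`). By `hr`, `φ n * s = TT n * s`. Decompose `NN P` into cosets `n P`
(`Subgroup.groupEquivQuotientProdSubgroup : N ≃ (N ⧸ P) × P`, or choose representatives; `z` is constant on the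
cosets): `0 = ∑ n, z n • φ n = ∑ cosets, z n • (φ n * s) = ∑ cosets, z n • (TT n * s) = ∑ n, z n • TT n`.
By `indep_TT`, `z = 0`. Contradiction. (`Fintype.ofFinite` for all finiteness.)
-/

namespace Pool.Agent.Helper7.SB

theorem indep_p {K : Type} [Group K] [Finite K] {p : ℕ} [Fact p.Prime] {P U : Subgroup K}
    (h : IsSplit p P U) {c : ZMod p} (hc : c * (Nat.card U : ZMod p) = 1)
    {φ : NN P → MonoidAlgebra (ZMod p) K} (hφ : IsHom c P U φ)
    (hr : ∀ n : NN P, (φ n - TT c U n) * eU 1 P = 0) [Fintype (NN P)] (z : NN P → ZMod p)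
    (hz : ∑ n : NN P, z n • φ n = 0) : z = 0 := by
  sorry

end Pool.Agent.Helper7.SB
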