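import Mathlib

/-!
# SB-19: linear independence modulo `p` implies linear independence over `ℂ` (Mathlib only)

PROOF. Let `Mp : Matrix A B (ZMod p)` be the reduction of `M`. By `h` its rows are linearly independent over
the field `ZMod p`, so there is `Bp : Matrix B A (ZMod p)` with `Mp * Bp = 1` (a linear map
`(A → ZMod p) → (B → ZMod p)`, `z ↦ z Mp`, is injective, so it has a left inverse:
`LinearMap.exists_leftInverse_of_injective`; or `Matrix.vecMul_injective_iff`,
`Matrix.mulVec_surjective_iff_exists_right_inverse`). Lift the entries of `Bp` to `ℤ_[p]`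
(`PadicInt.toZMod` is surjective, `ZMod.ringHom_surjective`): `B'`. `D = M * B'` is a square matrix over
`ℤ_[p]` whose reduction is `1`, so `det D` reduces to `1` (`RingHom.map_det`), and `det D ≠ 0`. The
determinant of the image of `D` under `ι` is `ι (det D) ≠ 0` (`RingHom.map_det`). If `z M = 0` over `ℂ` then
`z (ι M)(ι B') = z (ι D) = 0`, so `z = 0` (`Matrix.eq_zero_of_vecMul_eq_zero`).
-/

namespace Pool.Agent.Helper7.SB

theorem rows_indep {p : ℕ} [Fact p.Prime] {A B : Type} [Fintype A] [Fintype B]
    (M : A → B → ℤ_[p])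
    (h : ∀ z : A → ZMod p, (∀ b, ∑ a, z a * PadicInt.toZMod (M a b) = 0) → z = 0)
    (ι : ℤ_[p] →+* ℂ) (hι : Function.Injective ι) (z : A → ℂ)
    (hz : ∀ b, ∑ a, z a * ι (M a b) = 0) : z = 0 := by
  sorry

end Pool.Agent.Helper7.SB
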