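import Pool.Agent.Helper7.SB.ZpLift
import Pool.Agent.Helper7.SB.IndP
import Pool.Agent.Helper7.SB.RowsInd
import Pool.Agent.Helper7.SB.Emb

/-!
# SB-21: the homomorphism over the complex numbers

PROOF. `|U|` is prime to `p` (`card_U`), so it is a unit of `ℤ_[p]` (`PadicInt.isUnit_iff`,
`PadicInt.norm_natCast_eq_one_iff`): `c |U| = 1`. `zp_lift` gives `φ0` over `ℤ_[p]`. Let `ι` be as in `exists_emb` and
`φ n = mapRingHom ι (φ0 n)`; `ι c = |U|⁻¹` since `ι c * |U| = 1`. `IsHom` by `map_isHom`.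
Linear independence (`Fintype.linearIndependent_iff`): `∑ z n • φ n = 0` gives `∑ z n * ι ((φ0 n).coeff x) = 0` for all
`x`, so `z = 0` by `rows_indep` with `M n x = (φ0 n).coeff x`. Its hypothesis: let `f = PadicInt.toZMod`,
`φp n = mapRingHom f (φ0 n)`: `IsHom (f c) P U φp` (`map_isHom`), `f c * |U| = 1`, and applying `mapRingHom f` to
`Red` gives `(φp n - TT (f c) U n) * eU 1 P = (f p) • _ = 0` (`map_TT`, `map_eU`; `f p = 0`). If
`∑ n, z n * f ((φ0 n).coeff x) = 0` for all `x` then `∑ n, z n • φp n = 0` and `z = 0` by `indep_p`.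
-/

namespace Pool.Agent.Helper7.SB

theorem c_lift {K : Type} [Group K] [Finite K] {p : ℕ} [Fact p.Prime] {P U : Subgroup K}
    (h : IsSplit p P U) :
    ∃ φ : NN P → MonoidAlgebra ℂ K, IsHom ((Nat.card U : ℂ)⁻¹) P U φ ∧ LinearIndependent ℂ φ := by
  sorry

end Pool.Agent.Helper7.SB
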