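import Mathlib

/-!
# SB-15: a compactness lemma for `p`-adic integers (Mathlib only)

PROOF. For `k ≥ 1` let `C k = {x | (∀ i, ‖F i x‖ ≤ p ^ (-k)) ∧ ∀ j, ‖G j x‖ ≤ p ^ (-1)}`
(`PadicInt.norm_le_pow_iff_mem_span_pow`, `Ideal.mem_span_singleton`: `‖y‖ ≤ p ^ (-n) ↔ p ^ n ∣ y`). `C k` is closed
(`isClosed_le`, continuity of the norm), so compact, not empty by hypothesis, and decreasing in `k`.
By `IsCompact.nonempty_iInter_of_sequence_nonempty_isCompact_isClosed` (for `k + 1`, `k : ℕ`) there is `x`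
in all `C k`; `‖F i x‖ ≤ p ^ (-k)` for all `k ≥ 1`, so `F i x = 0`.
-/

namespace Pool.Agent.Helper7.SB

theorem comp_zp {p : ℕ} [Fact p.Prime] {X I J : Type} [TopologicalSpace X] [CompactSpace X]
    (F : I → X → ℤ_[p]) (hF : ∀ i, Continuous (F i)) (G : J → X → ℤ_[p])
    (hG : ∀ j, Continuous (G j))
    (h : ∀ k : ℕ, 1 ≤ k → ∃ x, (∀ i, (p : ℤ_[p]) ^ k ∣ F i x) ∧ ∀ j, (p : ℤ_[p]) ∣ G j x) :
    ∃ x, (∀ i, F i x = 0) ∧ ∀ j, (p : ℤ_[p]) ∣ G j x := by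
  sorry

end Pool.Agent.Helper7.SB
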