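import Pool.Agent.Helper7.SB.CornerDefs

/-!
# SB-13: automorphisms of the corner ring

PROOF. Let `s0 = MonoidAlgebra.domCongr R R σ : R[K] ≃ₐ[R] R[K]`, with
`(s0 a).coeff (σ x) = a.coeff x` (`MonoidAlgebra.coeff_domCongr`). It maps `e` to `e` (`eU_aut`: compare the
coefficients; every element of `K` is `σ x`), and so does its inverse. So it maps the corner (`e x = x`,
`x e = x`) onto itself and induces a ring automorphism `s` of `CC hc` (operations are those of the group
algebra, check after coercion). `σN` is the restriction of `σ` to `NN P` (`aut_NN`; the inverse is the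
restriction of `σ⁻¹`, which also preserves `P`).
-/

namespace Pool.Agent.Helper7.SB

theorem exists_aut {K : Type} [Group K] [Finite K] {R : Type} [CommRing R] {P U : Subgroup K}
    {c : R} (hc : c * (Nat.card U : R) = 1) {σ : MulAut K} (hσ : Pres P U σ) :
    ∃ (s : CC hc ≃+* CC hc) (σN : NN P ≃* NN P), (∀ n : NN P, (σN n : K) = σ n) ∧
      ∀ (x : CC hc) (y : K), (cv (s x)).coeff (σ y) = (cv x).coeff y := by
  sorry

end Pool.Agent.Helper7.SB
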