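import Pool.Agent.Helper7.SB.AbsDefs

/-!
# SB-07: the ideal `JJ` of errors

PROOF. `JJ_p`: `x` is an integral combination of the `T m` (`span`; use `Submodule.span_induction`), and
`p T m ∈ JJ`. `JJ_t`: `x` is an integral combination of the `T m`, and
`T m * (T t - 1) = T (m t) - T m ∈ JJ` (`right`, `t ∈ P ≤ N0`).
`JJ_left`: for the generators: `h (p T m) = p (h T m)` (`JJ_p`); `h (T (m t) - T m) =
(h T m)(T t - 1)` (`JJ_t`). Then `Submodule.span_induction`.
`JJ_right`: `(p T m) h = p (T m h)`. For `(T (m t) - T m) h = T m (T t - 1) h` it is enough by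
linearity to treat `h = T n`: `(T t - 1) T n = T (t n) - T n = T (n t') - T n = T n (T t' - 1)` with
`t' = n⁻¹ t n ∈ P` (`P` normal); so it is `(T m T n)(T t' - 1) ∈ JJ` by `JJ_t`.
-/

namespace Pool.Agent.Helper7.SB

variable {H : Type} [Ring H] {N : Type} [Group N] {p : ℕ} {P N0 : Subgroup N} {T : N → H}

theorem JJ_p (hT : IsTw P N0 T) (x : H) : (p : H) * x ∈ JJ p P T := by
  sorry

theorem JJ_t (hT : IsTw P N0 T) (x : H) {t : N} (ht : t ∈ P) : x * (T t - 1) ∈ JJ p P T := by
  sorry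

theorem JJ_left (hT : IsTw P N0 T) {x : H} (hx : x ∈ JJ p P T) (y : H) : y * x ∈ JJ p P T := by
  sorry

theorem JJ_right [P.Normal] (hT : IsTw P N0 T) {x : H} (hx : x ∈ JJ p P T) (y : H) :
    x * y ∈ JJ p P T := by
  sorry

end Pool.Agent.Helper7.SB
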