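import Pool.Agent.Helper7.SB.CornTw
import Pool.Agent.Helper7.SB.JId
import Pool.Agent.Helper7.SB.Cnt

/-!
# SB-12: the errors `T n T n' - T (n n')` lie in `JJ`, reduction of `JJ`

PROOF. `tc_err`: by `TT_mul`, `T n T n' = c ∑ u, T (mu (n u n'))`. By `sum_mu` with `M = CC hc`,
`τ = TC hc`, `J = JJ` (as additive subgroup; `p • T m = (p : CC hc) * T m ∈ JJ` is `JJ_p` with `tc_isTw`, and
`T (m t) - T m ∈ JJ` is a generator), `∑ u, T (mu (n u n')) - T (n n') ∈ JJ`. Let `C` be an integer with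
image `c` in `ZMod (p ^ k)`; `C • (∑ u, ... - T (n n')) ∈ JJ`. So `T n T n' - C • T (n n') ∈ JJ`. Since `c |U| = 1`
in `ZMod (p ^ k)` and `k ≥ 1`, `C |U| ≡ 1 mod p`, and `|U| ≡ 1 mod p` (`card_U`), so `C = 1 + p d` and
`C • T (n n') - T (n n') = p (d • T (n n')) ∈ JJ` (`JJ_p`).

`jj_red`: the set of all `x ∈ CC hc` with `∃ b, cv x * s = p • b` (`cv` is the inclusion into the group algebra, `s = eU 1 P`)
is an additive subgroup, so it is enough to check the generators (`Submodule.span_induction`).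
`p * T m`: its image under `cv` is `p • TT c U m`, take `b = TT c U m * s`.
`T (m t) - T m` with `t ∈ P`: `TT c U (m t) = TT c U m * TT c U t` (`TT_N0_right`) `= TT c U m * (single t 1 * e)
= TT c U m * (e * single t 1)` (`TT_N0`, `N0_comm`) and `TT c U m * e = TT c U m`, so
`TT c U (m t) * s = TT c U m * single t 1 * s = TT c U m * s` because `single t 1 * s = s`
(`single_mul_eU` for the subgroup `P`). So `b = 0`.
-/

namespace Pool.Agent.Helper7.SB

variable {K : Type} [Group K] [Finite K] {p : ℕ} [Fact p.Prime] {P U : Subgroup K}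

theorem tc_err (h : IsSplit p P U) {k : ℕ} (hk : 1 ≤ k) {c : ZMod (p ^ k)}
    (hc : c * (Nat.card U : ZMod (p ^ k)) = 1) (n n' : NN P) :
    (TC hc n * TC hc n' - TC hc (n * n') : CC hc) ∈
      JJ p (PN P) (fun n : NN P => (TC hc n : CC hc)) := by
  sorry

theorem jj_red (h : IsSplit p P U) {k : ℕ} {c : ZMod (p ^ k)}
    (hc : c * (Nat.card U : ZMod (p ^ k)) = 1) {x : CC hc}
    (hx : x ∈ JJ p (PN P) (fun n : NN P => (TC hc n : CC hc))) :
    ∃ b : MonoidAlgebra (ZMod (p ^ k)) K,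
      cv x * eU 1 P = (p : ZMod (p ^ k)) • b := by
  sorry

end Pool.Agent.Helper7.SB
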