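import Pool.Agent.Helper7.SB.CornerDefs
import Pool.Agent.Helper7.SB.AbsDefs

/-!
# SB-11: the corner ring satisfies the hypotheses of the abstract theorem

`R = ZMod (p ^ k)`, `CC hc` is the corner ring, `cv` its inclusion into the group algebra (`cv_inj`, `cv_mul`,
`cv_add`, `cv_one`, `cv_TC`; `mkC` builds elements; `Mathlib/RingTheory/Idempotents.lean`,
`IsIdempotentElem.Corner`).

PROOF. `cc_finite`: the group algebra is in bijection with `K →₀ ZMod (p ^ k)`
(`MonoidAlgebra.coeffEquiv`), finite (`p ^ k ≠ 0`). `cc_pow`: `((p : CC hc) ^ k : CC hc) = ((p ^ k : ℕ) : CC hc)`,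
and `(m : CC hc) = m • 1` has the image `m • e = (m : ZMod (p ^ k)) • e` under `cv`, which is `0` for `m = p ^ k`.
`tc_isTw`: `le`: `P_le_N0`. `one`: `TT_one`. `left`, `right`: `TT_N0_left`, `TT_N0_right`.
`span`: for `x` in the corner, `x = e x e ∈ Submodule.span R (range T)` (`span_TT`); a scalar of
`ZMod (p ^ k)` is an integer, `(r : ZMod _) • y = (r.val : ℤ) • y`, so `x` is in the `ℤ`-span
(`Submodule.span_induction` on the `R`-span with the predicate: every element `y` of the group algebra
in the `R`-span of the `TT c U n` is `cv` of an element of `Submodule.span ℤ (range (TC hc))`).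
`pn_index`: `(PN P).index` divides `P.index` (`Subgroup.relIndex_dvd_index_of_le`-like: `P.relIndex (NN P)
* (NN P).index = P.index`, `Subgroup.relIndex_mul_index`, `Subgroup.le_normalizer`).
`pn_normal`: `Subgroup.normal_in_normalizer`. `pn_pgroup`: `IsPGroup.comap_of_injective` or similar.
-/

namespace Pool.Agent.Helper7.SB

variable {K : Type} [Group K] [Finite K] {p : ℕ} [Fact p.Prime] {P U : Subgroup K}

theorem cc_finite {k : ℕ} {c : ZMod (p ^ k)} (hc : c * (Nat.card U : ZMod (p ^ k)) = 1) :
    Finite (CC hc) := by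
  sorry

theorem cc_pow {k : ℕ} {c : ZMod (p ^ k)} (hc : c * (Nat.card U : ZMod (p ^ k)) = 1) :
    (p : CC hc) ^ k = 0 := by
  sorry

theorem tc_isTw (h : IsSplit p P U) {k : ℕ} {c : ZMod (p ^ k)}
    (hc : c * (Nat.card U : ZMod (p ^ k)) = 1) :
    IsTw (PN P) (N0 P U) (fun n : NN P => (TC hc n : CC hc)) := by
  sorry

theorem pn_index (h : IsSplit p P U) : ¬ p ∣ (PN P).index := by
  sorry

theorem pn_normal (P : Subgroup K) : (PN P).Normal := by
  sorry

theorem pn_pgroup (h : IsSplit p P U) : IsPGroup p (PN P) := by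
  sorry

end Pool.Agent.Helper7.SB
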