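import Pool.Agent.Helper7.SB.Alg2

/-!
# SB: the corner ring `e R[K] e`, definitions
-/

namespace Pool.Agent.Helper7.SB

variable {K : Type} [Group K] [Finite K] {R : Type} [CommRing R] {P U : Subgroup K}

theorem eU_idem {c : R} (hc : c * (Nat.card U : R) = 1) : IsIdempotentElem (eU c U) :=
  eU_mul_eU c hc

/-- the corner ring `e R[K] e` -/
abbrev CC {c : R} (hc : c * (Nat.card U : R) = 1) : Type := (eU_idem hc).Corner

/-- the inclusion of the corner ring into the group algebra -/
def cv {c : R} {hc : c * (Nat.card U : R) = 1} (x : CC hc) : MonoidAlgebra R K :=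
  Subtype.val (show Subsemigroup.corner (eU c U) from x)

/-- an element of the corner ring -/
def mkC {c : R} (hc : c * (Nat.card U : R) = 1) (a : MonoidAlgebra R K) (h1 : eU c U * a = a)
    (h2 : a * eU c U = a) : CC hc :=
  ⟨a, (Subsemigroup.mem_corner_iff (eU_idem hc)).2 ⟨h1, h2⟩⟩

section

variable {c : R} {hc : c * (Nat.card U : R) = 1}

theorem cv_mkC (a : MonoidAlgebra R K) (h1 : eU c U * a = a) (h2 : a * eU c U = a) :
    cv (mkC hc a h1 h2) = a := rfl

theorem cv_inj {x y : CC hc} (h : cv x = cv y) : x = y := Subtype.ext h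

theorem cv_idl (x : CC hc) : eU c U * cv x = cv x :=
  ((Subsemigroup.mem_corner_iff (eU_idem hc)).1 x.2).1

theorem cv_idr (x : CC hc) : cv x * eU c U = cv x :=
  ((Subsemigroup.mem_corner_iff (eU_idem hc)).1 x.2).2

theorem cv_mul (x y : CC hc) : cv (x * y) = cv x * cv y := rfl

theorem cv_add (x y : CC hc) : cv (x + y) = cv x + cv y := rfl

theorem cv_zero : cv (0 : CC hc) = 0 := rfl

theorem cv_one : cv (1 : CC hc) = eU c U := rfl

theorem cv_neg (x : CC hc) : cv (-x) = -cv x := rfl

theorem cv_sub (x y : CC hc) : cv (x - y) = cv x - cv y := rfl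

end

/-- the element `T n` of the corner ring -/
noncomputable def TC {c : R} (hc : c * (Nat.card U : R) = 1) (n : NN P) : CC hc :=
  mkC hc (TT c U (n : K)) (TT_idl hc _) (TT_idr hc _)

theorem cv_TC {c : R} (hc : c * (Nat.card U : R) = 1) (n : NN P) :
    cv (TC hc n) = TT c U (n : K) := rfl

end Pool.Agent.Helper7.SB
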