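import Pool.Agent.Helper7.MK.Defs

/-!
# Split Bruhat decompositions and the McKay congruence (project SB, MP_5ecade_al): definitions

`P` is a Sylow `p`-subgroup of `K`, `N = NN P` its normalizer, `U` a subgroup normalized by `P` with
`C_U(P) = 1`, and every `x` lies in `U n U` for exactly one `n` in `N`.
-/

namespace Pool.Agent.Helper7.SB

/-- the normalizer -/
abbrev NN {K : Type} [Group K] (P : Subgroup K) : Subgroup K := Subgroup.normalizer (P : Set K)

/-- split Bruhat data -/
structure IsSplit {K : Type} [Group K] (p : ℕ) (P U : Subgroup K) : Prop where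
  pgroup : IsPGroup p P
  index : ¬ p ∣ P.index
  norm : ∀ g ∈ P, ∀ u ∈ U, g * u * g⁻¹ ∈ U
  fix : ∀ u ∈ U, (∀ g ∈ P, g * u * g⁻¹ = u) → u = 1
  bruhat : ∀ x : K, ∃! n : K, n ∈ NN P ∧ ∃ u ∈ U, ∃ v ∈ U, x = u * n * v

section grp

variable {K : Type} [Group K] {p : ℕ} {P U : Subgroup K}

/-- the element of `N` in the double coset of `x` -/
noncomputable def mu (h : IsSplit p P U) (x : K) : NN P :=
  ⟨(h.bruhat x).choose, (h.bruhat x).choose_spec.1.1⟩

/-- the elements of `N` which normalize `U` -/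
def N0 (P U : Subgroup K) : Subgroup (NN P) where
  carrier := {g | ∀ x, (g : K) * x * (g : K)⁻¹ ∈ U ↔ x ∈ U}
  one_mem' := fun x => by simp
  mul_mem' := by
    intro a b ha hb x
    have h1 := ha ((b : K) * x * (b : K)⁻¹)
    have h2 : ((a * b : NN P) : K) * x * ((a * b : NN P) : K)⁻¹ =
        (a : K) * ((b : K) * x * (b : K)⁻¹) * (a : K)⁻¹ := by
      rw [Subgroup.coe_mul]; group
    rw [h2, h1]
    exact hb x
  inv_mem' := by
    intro a ha x
    have h1 := ha (((a⁻¹ : NN P) : K) * x * ((a⁻¹ : NN P) : K)⁻¹)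
    have h2 : (a : K) * (((a⁻¹ : NN P) : K) * x * ((a⁻¹ : NN P) : K)⁻¹) * (a : K)⁻¹ = x := by
      rw [Subgroup.coe_inv]; group
    rw [h2] at h1
    exact h1.symm

/-- `P` as a subgroup of its normalizer -/
abbrev PN (P : Subgroup K) : Subgroup (NN P) := P.subgroupOf (NN P)

/-- the automorphism `σ` preserves `U` and `P` -/
def Pres (P U : Subgroup K) (σ : MulAut K) : Prop :=
  (∀ x, σ x ∈ U ↔ x ∈ U) ∧ ∀ x, σ x ∈ P ↔ x ∈ P

end grp

section alg

variable {K : Type} [Group K] [Finite K] {R : Type} [CommRing R]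

open Classical in
/-- the element `c ∑ u` (`u` in `U`) of the group algebra -/
noncomputable def eU (c : R) (U : Subgroup K) : MonoidAlgebra R K :=
  MonoidAlgebra.ofCoeff (Finsupp.equivFunOnFinite.symm fun x => if x ∈ U then c else 0)

/-- the element `e n e` -/
noncomputable def TT (c : R) (U : Subgroup K) (n : K) : MonoidAlgebra R K :=
  eU c U * MonoidAlgebra.single n 1 * eU c U

/-- `φ` is a homomorphism from `N` to the units of `e R[K] e`, with `φ g = g e` for `g` in `N0`,
and equivariant under the automorphisms of `K` which preserve `U` and `P` -/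
structure IsHom (c : R) (P U : Subgroup K) (φ : NN P → MonoidAlgebra R K) : Prop where
  mul : ∀ n n' : NN P, φ n * φ n' = φ (n * n')
  idl : ∀ n, eU c U * φ n = φ n
  idr : ∀ n, φ n * eU c U = φ n
  n0 : ∀ g : NN P, g ∈ N0 P U → φ g = MonoidAlgebra.single (g : K) 1 * eU c U
  aut : ∀ σ : MulAut K, Pres P U σ → ∀ n n' : NN P, (n' : K) = σ n →
    ∀ x, (φ n').coeff (σ x) = (φ n).coeff x

/-- `(φ n - T n) ∑ t` (`t` in `P`) is divisible by `p` -/
def Red (p : ℕ) (c : R) (P U : Subgroup K) (φ : NN P → MonoidAlgebra R K) : Prop :=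
  ∀ n : NN P, ∃ b : MonoidAlgebra R K, (φ n - TT c U n) * eU 1 P = (p : R) • b

/-- the linear extension of the function `θ` to the group algebra -/
noncomputable def ev (θ : K → ℂ) (a : MonoidAlgebra ℂ K) : ℂ := a.coeff.sum fun x r => r * θ x

end alg

/-- the ideal of the errors -/
def JJ {H : Type} [Ring H] {N : Type} [Group N] (p : ℕ) (P : Subgroup N) (T : N → H) :
    Submodule ℤ H :=
  Submodule.span ℤ ({x | ∃ m, x = (p : H) * T m} ∪ {x | ∃ m, ∃ t ∈ P, x = T (m * t) - T m})

end Pool.Agent.Helper7.SB
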