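import Pool.Agent.Helper7.SB.Alg1

/-!
# SB-23: the linear extension of functions to the group algebra

`ev θ a = ∑ x, a x θ x`.

PROOF. `ev_eq` (finite sum), `ev_add`, `ev_smul`, `ev_single`: `Finsupp.sum_fintype`, ring. `ev_trace`: both sides are
linear in `a`; for `a = single x 1` both are `trace (ρ x)` (`Representation.asAlgebraHom_single_one`,
`Representation.character`). `ev_comm`: bilinear; for `a = single x 1`, `b = single y 1`:
`θ (x y) = θ (y x)` for class functions (`θ (y (x y) y⁻¹) = θ (x y)`). `ev_eU`: `ev_eq`, `eU_coeff`.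
`ev_aut`: `∑ x, a' x θ x = ∑ x, a' (σ x) θ (σ x)`.
`ev_zero_all` (an element on which all irreducible characters vanish together with all its translates is zero):
`δ(y) = 1` if `y = 1` and `0` else is a class function, so by `INC.expand` and
`B δ χ = χ 1 / |K|`: `δ = ∑ χ, (χ 1 / |K|) χ` over the irreducible characters. Hence
`a.coeff x = ∑ y, a.coeff y * δ (x⁻¹ y) = ∑ χ, (χ 1 / |K|) ev χ (single x⁻¹ 1 * a) = 0`.
-/

namespace Pool.Agent.Helper7.SB

open Pool.Agent.Helper42.INC

variable {K : Type} [Group K] [Finite K]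

theorem ev_eq [Fintype K] (θ : K → ℂ) (a : MonoidAlgebra ℂ K) :
    ev θ a = ∑ x, a.coeff x * θ x := by
  sorry

theorem ev_add (θ : K → ℂ) (a b : MonoidAlgebra ℂ K) : ev θ (a + b) = ev θ a + ev θ b := by
  sorry

theorem ev_smul (θ : K → ℂ) (r : ℂ) (a : MonoidAlgebra ℂ K) : ev θ (r • a) = r * ev θ a := by
  sorry

theorem ev_single (θ : K → ℂ) (x : K) : ev θ (MonoidAlgebra.single x 1) = θ x := by
  sorry

theorem ev_trace {V : Type} [AddCommGroup V] [Module ℂ V] [FiniteDimensional ℂ V]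
    (ρ : Representation ℂ K V) (a : MonoidAlgebra ℂ K) :
    ev ρ.character a = LinearMap.trace ℂ V (ρ.asAlgebraHom a) := by
  sorry

theorem ev_comm {θ : K → ℂ} (hθ : IsClass θ) (a b : MonoidAlgebra ℂ K) :
    ev θ (a * b) = ev θ (b * a) := by
  sorry

theorem ev_eU [Fintype K] (θ : K → ℂ) (c : ℂ) (U : Subgroup K) [Fintype U] :
    ev θ (eU c U) = c * ∑ u : U, θ u := by
  sorry

theorem ev_aut (θ : K → ℂ) (σ : MulAut K) {a a' : MonoidAlgebra ℂ K}
    (ha : ∀ x, a'.coeff (σ x) = a.coeff x) : ev θ a' = ev (fun x => θ (σ x)) a := by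
  sorry

theorem ev_zero_all {a : MonoidAlgebra ℂ K}
    (h : ∀ χ ∈ Irr K, ∀ x : K, ev χ (MonoidAlgebra.single x 1 * a) = 0) : a = 0 := by
  sorry

end Pool.Agent.Helper7.SB
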