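import Pool.Agent.Helper7.SB.AutDec
import Pool.Agent.Helper7.SB.EvL

/-!
# SB-32: equivariance

PROOF. `α = conj g * σ` (`aut_dec`), so `α x = g σ(x) g⁻¹` and `θ' x = θ (α x) = θ (σ x)` (class function). Let
`n1 = ⟨σ n, _⟩ ∈ NN P` (`aut_NN`). `ev θ' (φ n) = ev (θ ∘ σ) (φ n) = ev θ (φ n1)` (`ev_aut`, `hφ.aut`). And
`n' = α n = g n1 g⁻¹`, so `φ n' = φ g * φ n1 * φ g⁻¹` (`hφ.mul`), and `ev θ (φ g * (φ n1 * φ g⁻¹)) =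
ev θ (φ n1 * φ g⁻¹ * φ g) = ev θ (φ (n1 g⁻¹ g)) = ev θ (φ n1)` (`ev_comm`).
-/

namespace Pool.Agent.Helper7.SB

open Pool.Agent.Helper42.INC

theorem equi_F {K : Type} [Group K] [Finite K] {p r : ℕ} [Fact p.Prime] [Fact r.Prime]
    {P U : Subgroup K} (h : IsSplit p P U) (hU : IsPGroup r U) (hUi : ¬ r ∣ U.index) {c : ℂ}
    {φ : NN P → MonoidAlgebra ℂ K} (hφ : IsHom c P U φ) {α : MulAut K}
    (hα : ∀ x, α x ∈ NN P ↔ x ∈ NN P) {θ θ' : K → ℂ} (hθ : IsClass θ)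
    (he : ∀ x, θ' x = θ (α x)) (n n' : NN P) (hn : (n' : K) = α n) :
    ev θ' (φ n) = ev θ (φ n') := by
  sorry

end Pool.Agent.Helper7.SB
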