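import Pool.Agent.Helper7.SB.Defs

/-!
# SB-34: normalizers in central extensions

`π : K → S` is surjective with kernel the centre `Z`, `p` does not divide `|Z|`, `Q` a Sylow `p`-subgroup of `K`.

PROOF. Let `PS = π(Q)`. `→`: if `n` normalizes `Q` then `π n` normalizes `π(Q)`. `←`: let `π n` normalize `PS`
and `q ∈ Q`. `π (n q n⁻¹) ∈ PS`, so `n q n⁻¹ = q' z` with `q' ∈ Q`, `z ∈ Z`. `z = q'⁻¹ (n q n⁻¹)` and `z` is central, so
`q'` commutes with `n q n⁻¹ = q' z`; both have `p`-power order, so `z = q'⁻¹ (n q n⁻¹)`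
has `p`-power order; the order of `z` divides `|Z|`, prime to `p`, so `z = 1` and `n q n⁻¹ ∈ Q`. The same
for `n⁻¹` (or: `n Q n⁻¹ ≤ Q` and finiteness give equality). `Subgroup.mem_normalizer_iff`.
`ext_sylow`: every Sylow `p`-subgroup of `S` is `π(Q)` for a Sylow subgroup `Q` of `K`, and `π(Q)` is a Sylow
subgroup of `S` (`Sylow.mapSurjective`), any two are conjugate. Given Sylow subgroups `PS` of `S` and `Q` of `K`,
`π(Q) = s PS s⁻¹` for some `s ∈ S` (`MulAction.exists_smul_eq`).
-/

namespace Pool.Agent.Helper7.SB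

variable {K S : Type} [Group K] [Group S] [Finite K] {p : ℕ} [Fact p.Prime]

theorem nn_iff {π : K →* S} (hker : π.ker = Subgroup.center K)
    (hp : ¬ p ∣ Nat.card (Subgroup.center K)) (Q : Sylow p K) (n : K) :
    π n ∈ NN ((Q : Subgroup K).map π) ↔ n ∈ NN (Q : Subgroup K) := by
  sorry

/-- conjugate split data -/
theorem split_conj {P U : Subgroup K} (h : IsSplit p P U) (g : K) :
    IsSplit p (P.map (MulAut.conj g).toMonoidHom) (U.map (MulAut.conj g).toMonoidHom) := by
  sorry

theorem ext_conj [Finite S] {π : K →* S} (hπ : Function.Surjective π) {PS US : Subgroup S}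
    (hS : IsSplit p PS US) (Q : Sylow p K) : ∃ s : S,
      (Q : Subgroup K).map π = PS.map (MulAut.conj s).toMonoidHom := by
  sorry

end Pool.Agent.Helper7.SB
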