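import Pool.Agent.Helper7.SB.Defs

/-!
# SB-35: lifting an `r`-subgroup to a central extension of order prime to `r`

PROOF. `V = π⁻¹(US)`, `Z = center K = ker π ≤ V`. Let `U` be a Sylow `r`-subgroup of `V`, considered as a
subgroup of `K`. `V / Z` is isomorphic to `US`, an `r`-group, and `|Z|` is prime to `r`, so `|U| = |V / Z|`, `U ⊓ Z = ⊥`
(orders are coprime), `π` is injective on `U`, and `π(U) = US` (same order). So every `x ∈ V` is `u z` with `u ∈ U`,
`z ∈ Z` (`hex`). Characterization (`hord`): `x ∈ U` iff `x ∈ V` and `x` has `r`-power order: if `x = u z` has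
`r`-power order, then `z = u⁻¹ x` has `r`-power order (`u` and `x = u z` commute as `z` is central), so `z = 1` since
the order of `z` divides `|Z|`. Index: `|K| = |Z| |S|` and `|U| = |US|`, so `U.index = |Z| * US.index`, not
divisible by `r` if `US.index` is not.
-/

namespace Pool.Agent.Helper7.SB

theorem lift_U {K S : Type} [Group K] [Group S] [Finite K] [Finite S] {r : ℕ} [Fact r.Prime]
    {π : K →* S} (hπ : Function.Surjective π) (hker : π.ker = Subgroup.center K)
    (hr : ¬ r ∣ Nat.card (Subgroup.center K)) {US : Subgroup S} (hUS : IsPGroup r US)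
    (hUi : ¬ r ∣ US.index) :
    ∃ U : Subgroup K, IsPGroup r U ∧ ¬ r ∣ U.index ∧
      (∀ x, x ∈ U ↔ π x ∈ US ∧ ∃ k : ℕ, x ^ r ^ k = 1) ∧
      (∀ x, π x ∈ US → ∃ u ∈ U, ∃ z ∈ Subgroup.center K, x = u * z) ∧
      ∀ z ∈ Subgroup.center K, (∃ k : ℕ, z ^ r ^ k = 1) → z = 1 := by
  sorry

end Pool.Agent.Helper7.SB
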