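import Pool.Agent.Helper7.SB.ExtN
import Pool.Agent.Helper7.SB.ExtU

/-!
# SB-36: split data of central extensions

PROOF. `lift_U` gives `U` (`U` is the set of the elements of `r`-power order in `π⁻¹(US)`). `pgroup`, `index`: `Q` is a
Sylow subgroup (`Q.isPGroup'`, `Sylow.not_dvd_index`). `norm`: let `g ∈ Q`, `u ∈ U`: `π g ∈ PS`, so
`π (g u g⁻¹) ∈ US` (`hS.norm`), and `g u g⁻¹` has the order of `u`. `fix`: let `u ∈ U` be centralized by `Q`; then
`π u ∈ US` is centralized by `PS = π(Q)`, so `π u = 1` (`hS.fix`), `u ∈ center`, of `r`-power order, so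
`u = 1`. `bruhat`, existence: let `x ∈ K`; `π x = u0 n0 v0` with `n0 ∈ NN PS` (`hS.bruhat`), choose
`u, v ∈ U` and `n ∈ K` over them (`π(U) = US`: for `s ∈ US`, `s = π y`, `y = u z`, `π u = s`), so
`x = u n v z = u (n z) v` with `z ∈ center = ker π`, and `n z ∈ NN Q` by `nn_iff` (`π (n z) = n0`). Uniqueness: let
`u n v = u' n' v'`, `n, n' ∈ NN Q`. By uniqueness in `S`, `π n = π n'`, `n' = n z` with `z` central. Then
`u n v = z u' n v'`, so `z (u⁻¹ u') = n (v v'⁻¹) n⁻¹`. The right side has `r`-power order, `y = u⁻¹ u' ∈ U` has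
`r`-power order and commutes with `z y`, so `z = (z y) y⁻¹` has `r`-power order, `z = 1`, `n' = n`.
-/

namespace Pool.Agent.Helper7.SB

theorem ext_split {K S : Type} [Group K] [Group S] [Finite K] [Finite S] {p r : ℕ}
    [Fact p.Prime] [Fact r.Prime] {π : K →* S} (hπ : Function.Surjective π)
    (hker : π.ker = Subgroup.center K) (hp : ¬ p ∣ Nat.card (Subgroup.center K))
    (hr : ¬ r ∣ Nat.card (Subgroup.center K)) {PS US : Subgroup S} (hS : IsSplit p PS US)
    (hUS : IsPGroup r US) (hUi : ¬ r ∣ US.index) (Q : Sylow p K)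
    (hQ : (Q : Subgroup K).map π = PS) :
    ∃ U : Subgroup K, IsPGroup r U ∧ ¬ r ∣ U.index ∧ IsSplit p (Q : Subgroup K) U := by
  sorry

end Pool.Agent.Helper7.SB
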