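import Pool.Agent.Helper7.SB.AbsLift
import Pool.Agent.Helper7.SB.CornErr
import Pool.Agent.Helper7.SB.CornAut

/-!
# SB-14: the homomorphism over `ZMod (p ^ k)`

PROOF. Apply `abs_lift` with `H = CC hc`, `N = NN P`, `P = PN P`, `N0 = N0 P U`, `T = TC hc`
(`cc_finite`, `cc_pow`, `tc_isTw`, `pn_index`, `pn_normal`, `pn_pgroup`, `tc_err`): it gives `φ0 : NN P →* CC hc`. Put
`φ n = cv (φ0 n)`. `mul`: `φ0` is a homomorphism. `idl`, `idr`: elements of the corner
(`cv_idl`, `cv_idr`). `n0`: `φ0 g = TC hc g` and `TT_N0`. `aut`: let `s, σN` be as in `exists_aut`;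
`s (T n) = T (σN n)`: compare the coefficients at `σ y`: `TT_aut`. `σN x ∈ PN P ↔ x ∈ PN P` since `σ`
preserves `P`. So `s (φ0 n) = φ0 (σN n)`; with `n' = σN n` (`Subtype.ext`) the coefficient at `σ x` gives the
claim. `Red`: `φ0 n - T n ∈ JJ` and `jj_red`.
-/

namespace Pool.Agent.Helper7.SB

theorem fin_lift {K : Type} [Group K] [Finite K] {p : ℕ} [Fact p.Prime] {P U : Subgroup K}
    (h : IsSplit p P U) {k : ℕ} (hk : 1 ≤ k) {c : ZMod (p ^ k)}
    (hc : c * (Nat.card U : ZMod (p ^ k)) = 1) :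
    ∃ φ : NN P → MonoidAlgebra (ZMod (p ^ k)) K, IsHom c P U φ ∧ Red p c P U φ := by
  sorry

end Pool.Agent.Helper7.SB
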