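import Pool.Agent.Helper7.SB.MatchAbs
import Pool.Agent.Helper7.SB.AutDec
import Pool.Agent.Helper7.SB.EvL

/-!
# SB-31: `θ` and `F θ` are matched

PROOF. Let `θ = ρ.character`, `ρ` irreducible on `V`, `A0 = ρ.asAlgebraHom`. Apply `matched_of` with `T = NN P`,
`A = {σ | Pres P U σ}` (a subgroup), `E = A0 e`, `τ n = A0 (φ n)`. `hA`: `aut_NN`. `hE`: `h1`. `hmul`:
`hφ.mul`. `hdec`: `aut_dec`. `hconj`: if `conj g` preserves `U` then `g ∈ N0 P U` (definition), `hφ.n0`: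
`φ g = single g 1 * e`, and `A0 (single g 1) = ρ g`. `hS`: let `S ρ k = ρ (σ k) S` for all `k`. For
`a, a'` in the group algebra with `a'.coeff (σ x) = a.coeff x` for all `x`: `S * A0 a = A0 a' * S` (write
`A0 a = ∑ x, a.coeff x • ρ x` and `A0 a' = ∑ x, a'.coeff (σ x) • ρ (σ x)`). Use it for `a = a' = e` (`eU_aut`) and
for `a = φ t`, `a' = φ t'` (`hφ.aut`). The trace of `τ t` is `ev θ (φ t)` (`ev_trace`).
-/

namespace Pool.Agent.Helper7.SB

open Pool.Agent.Helper42.INC Pool.Agent.Helper7.MK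

theorem matched_F {K : Type} [Group K] [Finite K] {p r : ℕ} [Fact p.Prime] [Fact r.Prime]
    {P U : Subgroup K} (h : IsSplit p P U) (hU : IsPGroup r U) (hUi : ¬ r ∣ U.index) {c : ℂ}
    {φ : NN P → MonoidAlgebra ℂ K} (hφ : IsHom c P U φ) (h1 : φ 1 = eU c U) {θ : K → ℂ}
    (hθ : θ ∈ Irr K) : MatchedAut (NN P) θ (fun n => ev θ (φ n)) := by
  sorry

end Pool.Agent.Helper7.SB
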