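import Pool.Agent.Helper7.SB.Alg2

/-!
# SB-22: the values of `φ` span the corner

PROOF. Let `E` be the span of the `TT c U n`, `n : NN P`; `finrank E ≤ |NN P|` (`finrank_range_le_card`).
`φ n = e (φ n) e ∈ E` (`idl`, `idr`, `span_TT`), so the span `F` of the range of `φ` is contained in `E`, and
`finrank F = |NN P|` (`finrank_span_eq_card`, linear independence). So `F = E`
(`Submodule.eq_of_le_of_finrank_le`), and `e x e ∈ E` by `span_TT`.
-/

namespace Pool.Agent.Helper7.SB

theorem span_phi {K : Type} [Group K] [Finite K] {p : ℕ} {P U : Subgroup K}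
    (h : IsSplit p P U) {c : ℂ} {φ : NN P → MonoidAlgebra ℂ K} (hφ : IsHom c P U φ)
    (hli : LinearIndependent ℂ φ) (x : MonoidAlgebra ℂ K) :
    eU c U * x * eU c U ∈ Submodule.span ℂ (Set.range φ) := by
  sorry

end Pool.Agent.Helper7.SB
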