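import Pool.Agent.Helper7.SB.CLift
import Pool.Agent.Helper7.SB.SpanPhi
import Pool.Agent.Helper7.SB.CBij
import Pool.Agent.Helper7.SB.MatchF
import Pool.Agent.Helper7.SB.EquivF

/-!
# SB-33: `Good p K`

PROOF. Let `Q` be a Sylow `p`-subgroup, `U, r` from `hK`; `T = NN Q`, `T ≠ ⊤` by `hne`. Stability: `stab_NN`.
`c_lift` gives `φ`, `span_phi` the spanning property, `h1 : φ 1 = e` from `hφ.n0` for `g = 1`
(`1 ∈ N0`, `single 1 1 = 1`). `exists_bij` gives `F`. Equivariance: `equi_F` (`Irr.isClass`). Matched: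
`matched_F` (rewrite `(F θ).1` as the function `n ↦ ev θ.1 (φ n)`, `funext`).
-/

namespace Pool.Agent.Helper7.SB

open Pool.Agent.Helper42.INC Pool.Agent.Helper7.MK

theorem good_of {K : Type} [Group K] [Finite K] {p : ℕ} [Fact p.Prime]
    (hK : ∀ Q : Sylow p K, ∃ (r : ℕ) (_ : Fact r.Prime) (U : Subgroup K), IsPGroup r U ∧
      ¬ r ∣ U.index ∧ IsSplit p (Q : Subgroup K) U)
    (hne : ∀ Q : Sylow p K, NN (Q : Subgroup K) ≠ ⊤) : Good p K := by
  sorry

end Pool.Agent.Helper7.SB
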