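import Pool.Agent.Helper7.SB.Alg1

/-!
# SB-16: change of scalars

`map_hom f : MonoidAlgebra R K →+* MonoidAlgebra R' K` is `MonoidAlgebra.mapRingHom K f`; the coefficients of
the image are the images of the coefficients (`MonoidAlgebra.coeff_mapRingHom` or similar).

PROOF. `map_eU`: compare the coefficients (`eU_coeff`). `map_TT`: `map_mul`, `map_eU`,
`MonoidAlgebra.mapRingHom_single`. `map_isHom`: apply the ring homomorphism to the equations; `aut` by
coefficients.
-/

namespace Pool.Agent.Helper7.SB

variable {K : Type} [Group K] [Finite K] {R R' : Type} [CommRing R] [CommRing R']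
  {P U : Subgroup K}

theorem map_eU (f : R →+* R') (c : R) :
    MonoidAlgebra.mapRingHom K f (eU c U) = eU (f c) U := by
  sorry

theorem map_TT (f : R →+* R') (c : R) (n : K) :
    MonoidAlgebra.mapRingHom K f (TT c U n) = TT (f c) U n := by
  sorry

theorem map_isHom (f : R →+* R') {c : R} {φ : NN P → MonoidAlgebra R K} (hφ : IsHom c P U φ) :
    IsHom (f c) P U (fun n => MonoidAlgebra.mapRingHom K f (φ n)) := by
  sorry

end Pool.Agent.Helper7.SB
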