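import Pool.Agent.Helper7.SB.Defs

/-!
# SB-30: an abstract criterion for matched characters

`ρ` is an irreducible representation of `K` on `V`, `E` an idempotent of `End V`, `τ` a representation of `T`
on `E V` (`τ 1 = E`), `A` a group of automorphisms of `K` stabilizing `T` such that each intertwining operator
`S` for `σ ∈ A` commutes with `E` and transforms `τ` by `σ`, and `τ g = ρ g E` if `conj g ∈ A`.

PROOF. `Mo = {X : End V | X * E = X}`, a subspace of `End V`. `D (k, t) X = ρ k * X * τ t⁻¹` maps `Mo` to itself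
(`τ t⁻¹ * E = τ t⁻¹`), is multiplicative (`τ (t s)⁻¹ = τ s⁻¹ τ t⁻¹`), and `D (1, 1) X = X * E = X`. Trace: the
operator `X ↦ ρ k X τ t⁻¹` on `End V` has trace `trace (ρ k) * trace (τ t⁻¹)` (matrices: the trace of
`X ↦ A X B` is `tr A tr B`), it maps `End V` into `Mo`, so its trace on `Mo` is the same
(`LinearMap.trace_restrict_eq_of_forall_mem`).

For `σ ∈ A` with `θ ∘ σ = θ` (`θ = ρ.character`) there is an invertible `S` with `S ρ k = ρ (σ k) S`
for all `k`: the representations `k ↦ ρ (σ k)` and `ρ` are irreducible with the same character, so they are isomorphic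
(`FDRep.char_iso`-like; in the pool: `Helper42.INC`, `Helper7.MK`: search for a lemma that irreducible
representations with the same character are equivalent; or directly from `B_irr`/orthogonality: a nonzero
intertwiner exists since the inner product of the characters is not `0`, and it is bijective by Schur).
For `g ∈ T` and such an `S` let `R(g, S) X = ρ g * S * X * S⁻¹ * τ g⁻¹`, which maps `Mo` to itself.

(a) independence: if `conj g * σ = conj g' * σ'` with `g, g' ∈ T`, `σ, σ' ∈ A`, and `S, S'` intertwine `σ, σ'`, then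
`R(g, S) = R(g', S')` on `Mo`. Let `z = g⁻¹ g'`; `conj z = σ σ'⁻¹ ∈ A`, so `τ z = ρ z E`.
`ρ(z)⁻¹ S` intertwines `σ' = conj z⁻¹ * σ`, so by Schur (`ρ` irreducible) `S' = λ ρ(z)⁻¹ S`, `λ ≠ 0`. So
`R(g', S') X = ρ g' ρ(z)⁻¹ S X S⁻¹ ρ z τ (g'⁻¹) = ρ g S X S⁻¹ ρ z τ(z⁻¹) τ(g⁻¹)`. Here `X = X E`,
`E S⁻¹ = S⁻¹ E`, and `E ρ z τ(z⁻¹) = E ρ z E τ(z⁻¹) = E τ z τ(z⁻¹) = E τ 1 = E`. So this is
`ρ g S X S⁻¹ E τ(g⁻¹) = R(g, S) X`.
(b) multiplicativity: for `α = conj g * σ`, `β = conj g' * σ'`: `α β = conj (g σ(g')) * (σ σ')`, `S S'` intertwines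
`σ σ'`, and `R(g, S) R(g', S') X = ρ g S ρ g' S' X S'⁻¹ τ(g'⁻¹) S⁻¹ τ(g⁻¹) =
ρ g ρ(σ g') S S' X (S S')⁻¹ τ(σ g')⁻¹ τ(g⁻¹) = R(g σ g', S S') X`, using
`S τ(t) = τ(σ t) S`, so `τ(t) S⁻¹ = S⁻¹ τ(σ t)`.
(c) `R(g, S) D(k, t) X = ρ g S ρ k X τ(t⁻¹) S⁻¹ τ(g⁻¹) = ρ(g σ(k) g⁻¹) ρ g S X S⁻¹ τ(g⁻¹) τ(g σ(t⁻¹) g⁻¹) =
D(α k, α t) R(g, S) X`.
(d) for `α = conj t`, `t ∈ T`: take `g = t`, `σ = 1`, `S = 1` (by (a) any choice gives the same):
`R X = ρ t X τ(t⁻¹) = D (t, t) X`.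
For `α ∈ AutTh T θ` choose `(g, σ, S)` (`hdec`; then `θ ∘ σ = θ` because `θ` is a class function); `R α = R(g, S)`
is a homomorphism by (a), (b) (and (d) for `1`). Finally take the matrices of all operators with respect to a basis of `Mo`
(`LinearMap.toMatrix`, `LinearMap.trace_eq_matrix_trace`, `Module.finBasis`).
-/

namespace Pool.Agent.Helper7.SB

open Pool.Agent.Helper7.MK

theorem matched_of {K : Type} [Group K] [Finite K] {V : Type} [AddCommGroup V] [Module ℂ V]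
    [FiniteDimensional ℂ V] (ρ : Representation ℂ K V) [ρ.IsIrreducible] (T : Subgroup K)
    (A : Subgroup (MulAut K)) (hA : ∀ σ ∈ A, ∀ x, σ x ∈ T ↔ x ∈ T) (E : Module.End ℂ V)
    (τ : T → Module.End ℂ V) (hE : τ 1 = E) (hmul : ∀ s t, τ s * τ t = τ (s * t))
    (hdec : ∀ α : MulAut K, (∀ x, α x ∈ T ↔ x ∈ T) →
      ∃ (g : T) (σ : MulAut K), σ ∈ A ∧ α = MulAut.conj (g : K) * σ)
    (hS : ∀ σ ∈ A, ∀ S : (Module.End ℂ V)ˣ, (∀ k, (S : Module.End ℂ V) * ρ k = ρ (σ k) * S) →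
      (S : Module.End ℂ V) * E = E * S ∧
      ∀ t t' : T, (t' : K) = σ t → (S : Module.End ℂ V) * τ t = τ t' * S)
    (hconj : ∀ g : T, MulAut.conj (g : K) ∈ A → τ g = ρ g * E) :
    MatchedAut T ρ.character (fun t => LinearMap.trace ℂ V (τ t)) := by
  sorry

end Pool.Agent.Helper7.SB
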