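import Pool.Agent.Helper7.SB.Defs

/-!
# SB-01: the map `mu`

PROOF. `mu_spec` is `(h.bruhat x).choose_spec.1.2`. `mu_eq`: `ExistsUnique` (`(h.bruhat x).unique` or
`(h.bruhat x).choose_spec.2 n ⟨n.2, u, hu, v, hv, hx⟩`). `mu_coe`: `mu_eq` with `u = v = 1`.
`mu_left`: if `x = a n b` (`a, b ∈ U`, `n = mu x`) then `u x = (u a) n b`. `mu_right` similar.
`P_le_N0`: let `t ∈ P`. `t x t⁻¹ ∈ U ↔ x ∈ U`: `←` is `h.norm`; `→` is `h.norm` for `t⁻¹` applied to
`t x t⁻¹`. `mu_N0_left`: `x = a n b`, then `g x = (g a g⁻¹) (g n) b` and `g a g⁻¹ ∈ U`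
(definition of `N0`, direction `←`). `mu_N0_right`: `x g = a (n g) (g⁻¹ b g)`, and
`g⁻¹ b g ∈ U` by the definition of `N0` for `g⁻¹ ∈ N0` or by the direction `→` for `g` (as
`g (g⁻¹ b g) g⁻¹ = b`). `aut_NN`: if `σ` preserves `P` then `n` normalizes `P` iff `σ n` does:
`Subgroup.mem_normalizer_iff`; every `y` is `σ x`, `σ n * σ x * (σ n)⁻¹ = σ (n x n⁻¹)`.
`mu_aut`: `x = a n b`, `σ x = σ a σ n σ b`, apply `mu_eq` with the element `⟨σ n, _⟩` of `NN P`.
`conj_pres`: the conjugation by `g ∈ N0` preserves `U` (definition) and `P` (`g` normalizes `P`).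
-/

namespace Pool.Agent.Helper7.SB

variable {K : Type} [Group K] {p : ℕ} {P U : Subgroup K}

theorem mu_spec (h : IsSplit p P U) (x : K) : ∃ u ∈ U, ∃ v ∈ U, x = u * (mu h x : K) * v := by
  sorry

theorem mu_eq (h : IsSplit p P U) {x u v : K} {n : NN P} (hu : u ∈ U) (hv : v ∈ U)
    (hx : x = u * (n : K) * v) : mu h x = n := by
  sorry

theorem mu_coe (h : IsSplit p P U) (n : NN P) : mu h (n : K) = n := by
  sorry

theorem mu_left (h : IsSplit p P U) {u : K} (hu : u ∈ U) (x : K) : mu h (u * x) = mu h x := by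
  sorry

theorem mu_right (h : IsSplit p P U) {u : K} (hu : u ∈ U) (x : K) : mu h (x * u) = mu h x := by
  sorry

theorem P_le_N0 (h : IsSplit p P U) : PN P ≤ N0 P U := by
  sorry

theorem mu_N0_left (h : IsSplit p P U) {g : NN P} (hg : g ∈ N0 P U) (x : K) :
    mu h ((g : K) * x) = g * mu h x := by
  sorry

theorem mu_N0_right (h : IsSplit p P U) {g : NN P} (hg : g ∈ N0 P U) (x : K) :
    mu h (x * (g : K)) = mu h x * g := by
  sorry

theorem aut_NN {σ : MulAut K} (hσ : ∀ x, σ x ∈ P ↔ x ∈ P) (n : K) : σ n ∈ NN P ↔ n ∈ NN P := by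
  sorry

theorem mu_aut (h : IsSplit p P U) {σ : MulAut K} (hσ : Pres P U σ) (x : K) :
    (mu h (σ x) : K) = σ (mu h x : K) := by
  sorry

theorem conj_pres {g : NN P} (hg : g ∈ N0 P U) : Pres P U (MulAut.conj (g : K)) := by
  sorry

end Pool.Agent.Helper7.SB
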