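import Pool.Agent.Helper7.SB.JId
import Pool.Agent.Helper7.SB.Orb

/-!
# SB-08: the ideal `JJ` is nilpotent

PROOF. Define `S : ℕ → AddSubgroup H` (or `Submodule ℤ H`): `S 0 = ⊥`,
`S (i+1) = {v | p v ∈ S i ∧ ∀ t ∈ P, (T t - 1) v ∈ S i}`.
(1) `S i ≤ S (i+1)`: induction.
(2) `h * v ∈ S i` for `v ∈ S i`, all `h`: induction on `i`; by `span` it is enough to treat `h = T n`:
let `v ∈ S (i+1)`. `p T n v = T n (p v) ∈ S i` by induction. For `t ∈ P`:
`(T t - 1) T n v = (T (t n) - T n) v = (T (n t') - T n) v = T n ((T t' - 1) v) ∈ S i`, `t' = n⁻¹ t n ∈ P`.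
(3) `x * v ∈ S i` for `x ∈ JJ`, `v ∈ S (i+1)`: for the generators `p T m v = T m (p v)` and
`(T (m t) - T m) v = T m ((T t - 1) v)`, then (2).
(4) If `S i ≠ ⊤` then `S i ≠ S (i+1)`: `V = H ⧸ S i` is a nonzero finite abelian group, killed by `p ^ k`.
`V1 = {v | p v = 0}` is not zero (take `v ≠ 0` and the last nonzero `p ^ j v`). `P` acts on `V1` by
`t • v = T t v` (well defined by (2), `T t T t' = T (t t')`, `T 1 = 1`, `P ≤ N0`). By `exists_fixed` there
is a nonzero fixed vector in `V1`; a representative `v` lies in `S (i+1)` and not in `S i`.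
(Alternative without quotients: `H` is finite, so it is enough to find `v ∈ S (i+1)`, `v ∉ S i`.)
(5) `H` is finite, so `S M = ⊤` for some `M` (the cardinality of `S i` grows strictly until it is `⊤`).
(6) `JJ ^ i * S i = 0`: induction: for `x ∈ JJ ^ i`, `y ∈ JJ`, `v ∈ S (i+1)`: `(x y) v = x (y v)` and
`y v ∈ S i` by (3) (`pow_succ`, `Submodule.mul_induction_on`). For `i = M`, `v = 1`: `JJ ^ M = ⊥`.
-/

namespace Pool.Agent.Helper7.SB

theorem JJ_nilp {H : Type} [Ring H] [Finite H] {N : Type} [Group N] [Finite N] {p : ℕ}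
    [Fact p.Prime] {P N0 : Subgroup N} [P.Normal] {T : N → H} (hP : IsPGroup p P)
    (hT : IsTw P N0 T) {k : ℕ} (hk : (p : H) ^ k = 0) : ∃ M : ℕ, JJ p P T ^ M = ⊥ := by
  sorry

end Pool.Agent.Helper7.SB
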