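import Pool.Agent.Helper7.SB.GoodK
import Pool.Agent.Helper7.SB.ExtS
import Pool.Agent.Helper24.S7.Defs

/-!
# SB-37: `p`-split simple groups are `p`-good

PROOF. Let `K` be perfect, `e : K/Z(K) ≃* S`, `p` not dividing `|Z(K)|`; `π = e ∘ mk : K → S` is surjective with
kernel `Z(K)`. `hz` gives `¬ r ∣ |Z(K)|`. For `Q : Sylow p K`: `ext_conj` gives `s` with
`π(Q) = s P s⁻¹`; `split_conj` gives split data `(s P s⁻¹, s U s⁻¹)` of `S` (the second is an `r`-group of the same
index: it is the image under an automorphism), and `ext_split` the data of `K`. So the hypothesis `hK` of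
`good_of` holds. `hne`: if `NN Q = ⊤` then `Q` is normal in `K`, `π(Q)` is normal in `S`, so
`π(Q) = ⊥` or `⊤` (`S` simple). `π(Q) = ⊥`: then `s P s⁻¹ = ⊥`, `P = ⊥`, and `P.index = |S|` is not divisible by
`p`, against `hpS`. `π(Q) = ⊤`: `S` is a `p`-group, not trivial, so its centre is not trivial
(`IsPGroup.center_nontrivial`), and `S` simple gives `S` abelian, against `hn`.
-/

namespace Pool.Agent.Helper7.SB

open Pool.Agent.Helper7.MK

theorem pgood_split {p : ℕ} [Fact p.Prime] {S : Type} [Group S] [Finite S]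
    (hS : IsSimpleGroup S) (hn : ¬ ∀ a b : S, a * b = b * a) (hpS : p ∣ Nat.card S) {r : ℕ}
    [Fact r.Prime] {P U : Subgroup S} (h : IsSplit p P U) (hU : IsPGroup r U)
    (hUi : ¬ r ∣ U.index)
    (hz : ∀ (K : Type) [Group K] [Finite K], ⁅(⊤ : Subgroup K), (⊤ : Subgroup K)⁆ = ⊤ →
      Nonempty ((K ⧸ Subgroup.center K) ≃* S) → ¬ p ∣ Nat.card (Subgroup.center K) →
      ¬ r ∣ Nat.card (Subgroup.center K)) :
    Pool.Agent.Helper24.S7.PGood p S := by
  sorry

end Pool.Agent.Helper7.SB
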