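import Pool.Agent.Helper7.SB.CompZp
import Pool.Agent.Helper7.SB.MapL
import Pool.Agent.Helper7.SB.FinLift

/-!
# SB-17: the homomorphism over the `p`-adic integers

PROOF. `X = NN P → K → ℤ_[p]` (compact: product of compact spaces, `K` and `NN P` finite). For `a : X` let
`φa n = MonoidAlgebra.ofCoeff (Finsupp.equivFunOnFinite.symm (a n))`. For fixed `y z` in the group algebra over
`ℤ_[p]` depending on `a` with continuous coefficients, the coefficients of `y z`, `y + z`, `y - z` are
continuous: `(y z).coeff x = ∑ v : K, y.coeff v * z.coeff (v⁻¹ x)` (prove this formula first; `Fintype K`).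
The functions `F i` (`i` in a sum type, or `I = {F : X → ℤ_[p] // Continuous F ∧ ...}`): the coefficients of
`φa n * φa n' - φa (n n')`, `e φa n - φa n`, `φa n e - φa n`, `φa g - single g 1 * e` (`g ∈ N0`),
and `(φa n').coeff (σ x) - (φa n).coeff x` (`Pres P U σ`, `(n' : K) = σ n`). The functions `G j`: the
coefficients of `(φa n - TT c U n) * eU 1 P`. (A convenient index type for `F`: `I = {F : X → ℤ_[p] // Continuous F ∧ ∀ k ≥ 1, ∀ a,
(φa reduced modulo p ^ k satisfies IsHom) → p ^ k ∣ F a}`, similarly for `G`.)

Hypothesis of `comp_zp` for `k ≥ 1`: let `f = PadicInt.toZModPow k : ℤ_[p] →+* ZMod (p ^ k)`, `ck = f c`,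
`ck |U| = 1`. `fin_lift` gives `φk`. `f` is surjective (`ZMod.ringHom_surjective`), so there is `a : X` with
`f (a n x) = (φk n).coeff x`, that is `mapRingHom f (φa n) = φk n`. Then `mapRingHom f` maps each of the
differences above to `0` (`map_eU`, `map_TT`, `IsHom c ..` for `φk`), so their coefficients are in the kernel of `f`,
which is the ideal generated by `p ^ k` (`PadicInt.ker_toZModPow`). For `G`: `(φk n - TT ck U n) * eU 1 P = p • bk`;
lift `bk` to `b` over `ℤ_[p]`: the coefficients of `(φa n - TT c U n) * eU 1 P - p • b` are divisible by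
`p ^ k`, so those of `(φa n - TT c U n) * eU 1 P` are divisible by `p`.
The point `a` given by `comp_zp` satisfies all equations (`IsHom`), and `Red`: choose for each coefficient the
quotient by `p`.
-/

namespace Pool.Agent.Helper7.SB

theorem zp_lift {K : Type} [Group K] [Finite K] {p : ℕ} [Fact p.Prime] {P U : Subgroup K}
    (h : IsSplit p P U) {c : ℤ_[p]} (hc : c * (Nat.card U : ℤ_[p]) = 1) :
    ∃ φ : NN P → MonoidAlgebra ℤ_[p] K, IsHom c P U φ ∧ Red p c P U φ := by
  sorry

end Pool.Agent.Helper7.SB
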